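import Pool.Agent.Q37.LV.Cor

/-! Averages of bounded functions in residue classes, and odd integers in residue classes. -/

set_option autoImplicit false

namespace Pool.Agent.Q37.LV

open Finset Filter Topology
open Pool.Agent.Q37.BV (lev len len_facts ind ind_nonneg sum_ind sum_Ico_nat)

/-- sums over residue classes -/
noncomputable def cf (F : ℕ → ℝ) (N q : ℕ) (a : ℤ) : ℝ := ∑ n ∈ Icc 1 N, if (q : ℤ) ∣ (n : ℤ) - a then F n else 0

/-- `F N` has the mean value `V` in residue classes -/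
def RVF (F : ℕ → ℕ → ℝ) (V : ℝ) : Prop :=
  (∀ δ : ℝ, 0 < δ → ∀ ε : ℝ, 0 < ε → ∃ N₀ : ℕ, ∀ N : ℕ, N₀ ≤ N → Lev δ ε N (fun q a => cf (F N) N q a - V * N / q)) ∧
  (∀ ε : ℝ, 0 < ε → ∃ η : ℝ, 0 < η ∧ ∃ N₀ : ℕ, ∀ N : ℕ, N₀ ≤ N → Var η ε N (fun q a => cf (F N) N q a - V * N / q))

open Classical in
theorem cf_ct (P : ℕ → Prop) (N q : ℕ) (a : ℤ) : cf (fun n => if P n then 1 else 0) N q a = ct P N q a := by
  rw [ct_eq]
  unfold cf
  apply sum_congr rfl
  intro n _
  by_cases h1 : (q : ℤ) ∣ (n : ℤ) - a <;> by_cases h2 : P n <;> simp [h1, h2]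

open Classical in
theorem RVF_of {P : ℕ → Prop} {l : ℝ} (h : RV P l) : RVF (fun _ n => if P n then 1 else 0) l := by
  unfold RVF
  simp only [cf_ct]
  exact h

theorem ct_true {N q : ℕ} (hq : 1 ≤ q) (a : ℤ) : |ct (fun _ => True) N q a - N / q| ≤ 1 := by
  have h := sum_ind 1 N hq a
  rw [sum_Ico_nat N (fun n => ind q a n)] at h
  have e : ct (fun _ => True) N q a = ∑ n ∈ Icc 1 N, ind q a n := by
    rw [ct_eq]
    apply sum_congr rfl
    intro n _
    unfold ind
    simp
  rw [e]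
  exact h

theorem Lev_scale {δ ε C : ℝ} (hC : 0 < C) {N : ℕ} {D : ℕ → ℤ → ℝ} (h : Lev δ (ε / C) N (fun q a => D q a / C)) :
    Lev δ ε N D := by
  intro Q hQ hQl a
  have h1 := h Q hQ hQl a
  have e : ∑ q ∈ Ico Q (2 * Q), |D q (a q) / C| = (∑ q ∈ Ico Q (2 * Q), |D q (a q)|) / C := by
    rw [sum_div]
    apply sum_congr rfl
    intro q _
    rw [abs_div, abs_of_pos hC]
  rw [e] at h1
  have e2 : ε / C * (N : ℝ) = ε * N / C := by ring
  rw [e2] at h1
  exact (div_le_div_iff_of_pos_right hC).1 h1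

theorem Var_scale {η ε C : ℝ} (hC : 0 < C) {N : ℕ} {D : ℕ → ℤ → ℝ} (h : Var η (ε / C ^ 2) N (fun q a => D q a / C)) :
    Var η ε N D := by
  intro Q hQ hQl
  have h1 := h Q hQ hQl
  have e : ∑ q ∈ Ico Q (2 * Q), ∑ a ∈ range q, (D q ((a : ℕ) : ℤ) / C) ^ 2 =
      (∑ q ∈ Ico Q (2 * Q), ∑ a ∈ range q, (D q ((a : ℕ) : ℤ)) ^ 2) / C ^ 2 := by
    rw [sum_div]
    apply sum_congr rfl
    intro q _
    rw [sum_div]
    apply sum_congr rfl
    intro a _
    rw [div_pow]
  rw [e] at h1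
  have e2 : ε / C ^ 2 * (N : ℝ) ^ 2 = ε * N ^ 2 / C ^ 2 := by ring
  rw [e2] at h1
  exact (div_le_div_iff_of_pos_right (by positivity)).1 h1

open Classical in
/-- AVERAGES -/
theorem RVF_avg {Hit : ℕ → Prop} {Typ : ℝ → ℕ → Prop} {δ c Λ B : ℝ} (hc : 0 ≤ c) (hΛ : 0 ≤ Λ) (hB : 0 ≤ B)
    (h1 : RV Hit δ) (h2 : ∀ η : ℝ, 0 < η → RV (Typ η) δ) (hTH : ∀ η n, Typ η n → Hit n)
    {F : ℕ → ℕ → ℝ} (h0 : ∀ N n, 0 ≤ F N n ∧ F N n ≤ B)
    (h3 : ∀ ε : ℝ, 0 < ε → ∃ η : ℝ, 0 < η ∧ ∃ N₀ : ℕ, ∀ N : ℕ, N₀ ≤ N → ∀ n : ℕ, N / Real.log N ^ 2 < n → n ≤ N →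
      Typ η n → |F N n - c| ≤ ε)
    (h4 : ∀ ε : ℝ, 0 < ε → ∃ N₀ : ℕ, ∀ N : ℕ, N₀ ≤ N → ∀ n : ℕ, N / Real.log N ^ 2 < n → n ≤ N → ¬ Hit n → |F N n - Λ| ≤ ε) :
    RVF F (δ * c + (1 - δ) * Λ) := by
  set C : ℝ := 2 * (B + c + Λ + 1) with hC
  have hC0 : 0 < C := by positivity
  -- the pointwise comparison
  have key : ∀ ε : ℝ, 0 < ε → ε ≤ 1 → ∃ η : ℝ, 0 < η ∧ ∃ N₀ : ℕ, ∀ N : ℕ, N₀ ≤ N → ∀ q : ℕ, 1 ≤ q → ∀ a : ℤ,
      |(cf (F N) N q a - (δ * c + (1 - δ) * Λ) * N / q) / C| ≤ |ct (Typ η) N q a - δ * N / q| + |ct Hit N q a - δ * N / q| +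
        (((N : ℝ) / Real.log N ^ 2 + ε * N) / q + 1) := by
    intro ε hε hε1
    obtain ⟨η, hη, N1, g3⟩ := h3 ε hε
    obtain ⟨N2, g4⟩ := h4 ε hε
    refine ⟨η, hη, max N1 N2, fun N hN q hq a => ?_⟩
    have g3 := g3 N ((le_max_left _ _).trans hN)
    have g4 := g4 N ((le_max_right _ _).trans hN)
    have hq0 : (0 : ℝ) < q := by exact_mod_cast hq
    set u : ℝ := (N : ℝ) / Real.log N ^ 2 with hu
    have hu0 : 0 ≤ u := by positivity
    -- sum of the pointwise bounds
    have k1 : |cf (F N) N q a - c * ct (Typ η) N q a - Λ * (ct (fun _ => True) N q a - ct Hit N q a)| ≤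
        ε * ct (fun _ => True) N q a + B * (ct Hit N q a - ct (Typ η) N q a) + (B + c + Λ) * (u / q + 1) := by
      have hsm : ∑ n ∈ Icc 1 N, (if (q : ℤ) ∣ (n : ℤ) - a ∧ (n : ℝ) ≤ u then (1 : ℝ) else 0) ≤ u / q + 1 := by
        have := ct_or (P := fun n => (n : ℝ) ≤ u) (Q := fun _ => False) hu0 N hq a (fun n _ _ hn hp => by linarith)
        rw [ct_eq, ct_eq] at this
        simpa using this
      obtain ⟨Tr, hTr⟩ : ∃ Tr : ℕ → Prop, Tr = fun _ => True := ⟨_, rfl⟩
      rw [← hTr]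
      have hT : ∀ n, Tr n := fun n => by rw [hTr]; trivial
      have hpt : ∀ n ∈ Icc 1 N, |(if (q : ℤ) ∣ (n : ℤ) - a then F N n else 0) -
          c * (if (q : ℤ) ∣ (n : ℤ) - a ∧ Typ η n then (1 : ℝ) else 0) -
          Λ * ((if (q : ℤ) ∣ (n : ℤ) - a ∧ Tr n then (1 : ℝ) else 0) - (if (q : ℤ) ∣ (n : ℤ) - a ∧ Hit n then (1 : ℝ) else 0))| ≤
          ε * (if (q : ℤ) ∣ (n : ℤ) - a ∧ Tr n then (1 : ℝ) else 0) +
          B * ((if (q : ℤ) ∣ (n : ℤ) - a ∧ Hit n then (1 : ℝ) else 0) - (if (q : ℤ) ∣ (n : ℤ) - a ∧ Typ η n then (1 : ℝ) else 0)) +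
          (B + c + Λ) * (if (q : ℤ) ∣ (n : ℤ) - a ∧ (n : ℝ) ≤ u then (1 : ℝ) else 0) := by
        intro n hn
        rw [mem_Icc] at hn
        obtain ⟨F0, F1⟩ := h0 N n
        by_cases hd : (q : ℤ) ∣ (n : ℤ) - a
        · by_cases ht : Typ η n
          · have hh := hTH η n ht
            by_cases hs : (n : ℝ) ≤ u
            · simp only [hd, ht, hh, hs, hT, if_true, sub_self, mul_zero, sub_zero, mul_one, add_zero, and_self]
              rw [abs_le]; constructor <;> linarith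
            · have g5 := g3 n (not_le.1 hs) hn.2 ht
              simp only [hd, ht, hh, hs, hT, true_and, if_true, if_false, sub_self, mul_zero, sub_zero, mul_one, add_zero, and_self]
              exact g5
          · by_cases hh : Hit n
            · by_cases hs : (n : ℝ) ≤ u
              · simp only [hd, ht, hh, hs, hT, true_and, if_true, if_false, sub_self, mul_zero, sub_zero, mul_one, and_self]
                rw [abs_le]; constructor <;> linarith
              · simp only [hd, ht, hh, hs, hT, true_and, if_true, if_false, sub_self, mul_zero, sub_zero, mul_one, add_zero, and_self]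
                rw [abs_le]; constructor <;> linarith
            · by_cases hs : (n : ℝ) ≤ u
              · simp only [hd, ht, hh, hs, hT, true_and, if_true, if_false, sub_self, mul_zero, sub_zero, mul_one, add_zero, and_self]
                rw [abs_le]; constructor <;> linarith
              · have g5 := g4 n (not_le.1 hs) hn.2 hh
                simp only [hd, ht, hh, hs, hT, true_and, if_true, if_false, sub_self, mul_zero, sub_zero, mul_one, add_zero, and_self]
                exact g5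
        · simp only [hd, false_and, if_false, sub_self, mul_zero, abs_zero, add_zero, le_refl]
      rw [ct_eq, ct_eq, ct_eq]
      unfold cf
      rw [mul_sum, ← sum_sub_distrib, ← sum_sub_distrib, mul_sum, ← sum_sub_distrib]
      refine (abs_sum_le_sum_abs _ _).trans ((sum_le_sum hpt).trans ?_)
      rw [sum_add_distrib, sum_add_distrib, ← mul_sum, ← mul_sum, ← mul_sum, sum_sub_distrib]
      have := mul_le_mul_of_nonneg_left hsm (show 0 ≤ B + c + Λ by positivity)
      linarith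
    have k2 := ct_true (N := N) hq a
    set d1 := ct (Typ η) N q a - δ * N / q with hd1
    set d2 := ct Hit N q a - δ * N / q with hd2
    set d3 := ct (fun _ => True) N q a - N / q with hd3
    have e1 : ct (Typ η) N q a = d1 + δ * N / q := by rw [hd1]; ring
    have e2 : ct Hit N q a = d2 + δ * N / q := by rw [hd2]; ring
    have e3 : ct (fun _ => True) N q a = d3 + N / q := by rw [hd3]; ring
    rw [e1, e2, e3] at k1
    rw [abs_div, abs_of_pos hC0, div_le_iff₀ hC0]
    have k3 : |cf (F N) N q a - (δ * c + (1 - δ) * Λ) * N / q| ≤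
        |cf (F N) N q a - c * (d1 + δ * N / q) - Λ * (d3 + N / q - (d2 + δ * N / q))| + c * |d1| + Λ * |d2| + Λ * |d3| := by
      have e4 : cf (F N) N q a - (δ * c + (1 - δ) * Λ) * N / q =
          (cf (F N) N q a - c * (d1 + δ * N / q) - Λ * (d3 + N / q - (d2 + δ * N / q))) + c * d1 + (-(Λ * d2)) + Λ * d3 := by ring
      rw [e4]
      refine (abs_add_le _ _).trans ?_
      refine (add_le_add_left (abs_add_le _ _) _).trans ?_
      refine (add_le_add_left (add_le_add_left (abs_add_le _ _) _) _).trans ?_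
      rw [abs_neg, abs_mul, abs_mul, abs_mul, abs_of_nonneg hc, abs_of_nonneg hΛ]
    have m1 := le_abs_self d1
    have m2 := neg_abs_le d1
    have m3 := le_abs_self d2
    have m4 := le_abs_self d3
    have a1 := abs_nonneg d1
    have a2 := abs_nonneg d2
    have a3 := abs_nonneg d3
    have hNq : 0 ≤ (N : ℝ) / q := by positivity
    have huq : 0 ≤ u / q := by positivity
    have k4 : ε * (d3 + N / q) + B * (d2 + δ * N / q - (d1 + δ * N / q)) ≤ ε * (1 + N / q) + B * (|d2| + |d1|) := by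
      have n1 : ε * (d3 + N / q) ≤ ε * (1 + N / q) := mul_le_mul_of_nonneg_left (by linarith) hε.le
      have n2 : B * (d2 + δ * N / q - (d1 + δ * N / q)) ≤ B * (|d2| + |d1|) := mul_le_mul_of_nonneg_left (by linarith) hB
      linarith
    have k5 : Λ * |d3| ≤ Λ := by nlinarith
    have e5 : (u + ε * N) / q = u / q + ε * (N / q) := by ring
    rw [e5]
    have k6 : 0 ≤ ε * ((N : ℝ) / q) := by positivity
    have k7 : 0 ≤ (B + c + Λ) * (ε * ((N : ℝ) / q)) := by positivity
    have k8 : 0 ≤ (B + c + Λ) * (u / q) := by positivity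
    have k9 : 0 ≤ (B + c + Λ) * |d1| := by positivity
    have k10 : 0 ≤ (B + c + Λ) * |d2| := by positivity
    have k11 : 0 ≤ B * |d1| := by positivity
    have k12 : 0 ≤ B * |d2| := by positivity
    have k13 : 0 ≤ c * |d1| := by positivity
    have k14 : 0 ≤ Λ * |d2| := by positivity
    have k15 : 0 ≤ c * |d2| := by positivity
    have k16 : 0 ≤ Λ * |d1| := by positivity
    rw [hC]
    nlinarith
  constructor
  · intro θ hθ ε hε
    set e' : ℝ := min 1 (ε / C / 5) with he'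
    have he0 : 0 < e' := by positivity
    obtain ⟨η, hη, N1, g1⟩ := key e' he0 (min_le_left _ _)
    obtain ⟨N2, g2⟩ := h1.1 θ hθ (ε / C / 5) (by positivity)
    obtain ⟨N3, g3⟩ := (h2 η hη).1 θ hθ (ε / C / 5) (by positivity)
    obtain ⟨N4, g4⟩ := inv_log_sq (show 0 < ε / C / 5 by positivity)
    obtain ⟨N5, g5⟩ := lev_le hθ (show 0 < ε / C / 5 by positivity)
    refine ⟨max (max N1 N2) (max N3 (max N4 N5)), fun N hN => ?_⟩
    have i1 : N1 ≤ N := ((le_max_left _ _).trans (le_max_left _ _)).trans hN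
    have i2 : N2 ≤ N := ((le_max_right _ _).trans (le_max_left _ _)).trans hN
    have i3 : N3 ≤ N := ((le_max_left _ _).trans (le_max_right _ _)).trans hN
    have i4 : N4 ≤ N := (((le_max_left _ _).trans (le_max_right _ _)).trans (le_max_right _ _)).trans hN
    have i5 : N5 ≤ N := (((le_max_right _ _).trans (le_max_right _ _)).trans (le_max_right _ _)).trans hN
    apply Lev_scale hC0
    refine Lev_of (u := (N : ℝ) / Real.log N ^ 2 + e' * N) (by positivity) (fun q hq a => g1 N i1 q hq a)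
      (g3 N i3) (g2 N i2) ?_
    have j4 := g4 N i4
    have j5 := g5 N i5
    have j6 : e' * (N : ℝ) ≤ ε / C / 5 * N := mul_le_mul_of_nonneg_right (min_le_right _ _) (Nat.cast_nonneg _)
    linarith
  · intro ε hε
    set E : ℝ := ε / C ^ 2 with hE
    have hE0 : 0 < E := by positivity
    set e' : ℝ := min 1 (E / 200) with he'
    have he0 : 0 < e' := by positivity
    have he1 : e' ≤ 1 := min_le_left _ _
    have he2 : e' ≤ E / 200 := min_le_right _ _
    obtain ⟨η, hη, N1, g1⟩ := key e' he0 he1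
    obtain ⟨η1, hη1, N2, g2⟩ := h1.2 (E / 24) (by positivity)
    obtain ⟨η2, hη2, N3, g3⟩ := (h2 η hη).2 (E / 24) (by positivity)
    obtain ⟨N4, g4⟩ := inv_log_sq he0
    refine ⟨min (min η1 η2) (min 1 (E / 48)), by positivity, max (max N1 N2) (max N3 N4), fun N hN => ?_⟩
    have j1 : N1 ≤ N := ((le_max_left _ _).trans (le_max_left _ _)).trans hN
    have j2 : N2 ≤ N := ((le_max_right _ _).trans (le_max_left _ _)).trans hN
    have j3 : N3 ≤ N := ((le_max_left _ _).trans (le_max_right _ _)).trans hN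
    have j4 : N4 ≤ N := ((le_max_right _ _).trans (le_max_right _ _)).trans hN
    have i1 : min (min η1 η2) (min 1 (E / 48)) ≤ η1 := (min_le_left _ _).trans (min_le_left _ _)
    have i2 : min (min η1 η2) (min 1 (E / 48)) ≤ η2 := (min_le_left _ _).trans (min_le_right _ _)
    have i3 : min (min η1 η2) (min 1 (E / 48)) ≤ 1 := (min_le_right _ _).trans (min_le_left _ _)
    have i4 : min (min η1 η2) (min 1 (E / 48)) ≤ E / 48 := (min_le_right _ _).trans (min_le_right _ _)
    have i0 : 0 ≤ min (min η1 η2) (min 1 (E / 48)) := by positivity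
    have hN0 : (0 : ℝ) ≤ N := Nat.cast_nonneg _
    apply Var_scale hC0
    refine Var_of (u := (N : ℝ) / Real.log N ^ 2 + e' * N) (by positivity) i0 (fun q hq a => g1 N j1 q hq a)
      (Var_mono i2 (g3 N j3)) (Var_mono i1 (g2 N j2)) ?_
    have h5 : (min (min η1 η2) (min 1 (E / 48))) ^ 2 ≤ E / 48 := by nlinarith
    have h6 := mul_le_mul_of_nonneg_right h5 (sq_nonneg (N : ℝ))
    have h7 : ((N : ℝ) / Real.log N ^ 2 + e' * N) ^ 2 ≤ E / 200 * 4 * N ^ 2 := by
      have h8 : (N : ℝ) / Real.log N ^ 2 + e' * N ≤ 2 * e' * N := by linarith [g4 N j4]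
      have h9 : ((N : ℝ) / Real.log N ^ 2 + e' * N) ^ 2 ≤ (2 * e' * N) ^ 2 := pow_le_pow_left₀ (by positivity) h8 2
      have h10 : e' ^ 2 ≤ E / 200 := by nlinarith
      have h11 := mul_le_mul_of_nonneg_right h10 (show 0 ≤ 4 * (N : ℝ) ^ 2 by positivity)
      nlinarith
    nlinarith [sq_nonneg (N : ℝ), mul_nonneg hE0.le (sq_nonneg (N : ℝ))]

end Pool.Agent.Q37.LV
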