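import Pool.Agent.Q37.LV.Laws
import Pool.Agent.Q37.BV.Lin

/-! All classes to almost all moduli, and almost all classes to moduli as large as a multiple of the length. -/

set_option autoImplicit false

namespace Pool.Agent.Q37.LV

open Finset Filter Topology
open Pool.Agent.Q37.BV (lev len len_facts)

theorem mod_all {P : ℕ → Prop} {l : ℝ} (h : RV P l) {δ : ℝ} (hδ : 0 < δ) (hδ2 : δ < 1 / 2) {ε : ℝ} (hε : 0 < ε) :
    ∃ Q₀ : ℕ, ∀ Q : ℕ, Q₀ ≤ Q → ({q : ℕ | Q ≤ q ∧ q < 2 * Q ∧ ∃ a : ℤ,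
      ε * (⌊len δ Q⌋₊ / q) < |ct P ⌊len δ Q⌋₊ q a - l * ⌊len δ Q⌋₊ / q|}.ncard : ℝ) ≤ ε * Q := by
  classical
  obtain ⟨N₁, h1⟩ := h.1 δ hδ (ε ^ 2 / 2) (by positivity)
  obtain ⟨Q₁, h3⟩ := eventually_atTop.1 (len_facts hδ hδ2)
  refine ⟨max N₁ (max Q₁ 1), fun Q hQ => ?_⟩
  have hQ1 : N₁ ≤ Q := (le_max_left _ _).trans hQ
  have hQ3 : Q₁ ≤ Q := ((le_max_left _ _).trans (le_max_right _ _)).trans hQ
  have hQ4 : 1 ≤ Q := ((le_max_right _ _).trans (le_max_right _ _)).trans hQ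
  obtain ⟨h4, h5⟩ := h3 Q hQ3
  set N := ⌊len δ Q⌋₊ with hN
  have hN0 : (0 : ℝ) < N := by exact_mod_cast (by omega : 0 < N)
  have hQ0 : (0 : ℝ) < Q := by exact_mod_cast hQ4
  have hch : ∀ q : ℕ, ∃ a : ℤ, (∃ a : ℤ, ε * (N / q) < |ct P N q a - l * N / q|) →
      ε * (N / q) < |ct P N q a - l * N / q| := by
    intro q
    by_cases h : ∃ a : ℤ, ε * (N / q) < |ct P N q a - l * N / q|
    · obtain ⟨a, ha⟩ := h
      exact ⟨a, fun _ => ha⟩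
    · exact ⟨0, fun h' => absurd h' h⟩
  choose a ha using hch
  have h8 := h1 N (hQ1.trans h4) Q hQ4 h5 a
  have e1 : {q : ℕ | Q ≤ q ∧ q < 2 * Q ∧ ∃ a : ℤ, ε * (N / q) < |ct P N q a - l * N / q|} =
      ((Ico Q (2 * Q)).filter (fun q : ℕ => ∃ a : ℤ, ε * (N / q) < |ct P N q a - l * N / q|) : Finset ℕ) := by
    ext q
    simp [and_assoc]
  rw [e1, Set.ncard_coe_finset]
  set B := (Ico Q (2 * Q)).filter (fun q : ℕ => ∃ a : ℤ, ε * (N / q) < |ct P N q a - l * N / q|) with hB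
  have h9 : ∀ q ∈ B, ε * (N / (2 * Q)) ≤ |ct P N q (a q) - l * N / q| := by
    intro q hq
    rw [hB, mem_filter, mem_Ico] at hq
    obtain ⟨⟨g1, g2⟩, g3⟩ := hq
    have hq0 : (0 : ℝ) < q := by exact_mod_cast (by omega : 0 < q)
    have g6 : (q : ℝ) ≤ 2 * Q := by exact_mod_cast g2.le
    refine le_trans ?_ (ha q g3).le
    exact mul_le_mul_of_nonneg_left (div_le_div_of_nonneg_left hN0.le hq0 g6) hε.le
  have h10 : (#B : ℝ) * (ε * (N / (2 * Q))) ≤ ε ^ 2 / 2 * N := by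
    calc (#B : ℝ) * (ε * (N / (2 * Q))) = ∑ q ∈ B, ε * (N / (2 * Q)) := by rw [sum_const, nsmul_eq_mul]
      _ ≤ ∑ q ∈ B, |ct P N q (a q) - l * N / q| := sum_le_sum h9
      _ ≤ ∑ q ∈ Ico Q (2 * Q), |ct P N q (a q) - l * N / q| :=
          sum_le_sum_of_subset_of_nonneg (filter_subset _ _) fun _ _ _ => abs_nonneg _
      _ ≤ _ := h8
  have e2 : (#B : ℝ) * (ε * (N / (2 * Q))) = (#B / Q) * (ε / 2 * N) := by field_simp
  have e3 : ε ^ 2 / 2 * N = ε * (ε / 2 * N) := by ring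
  rw [e2, e3] at h10
  have h12 := le_of_mul_le_mul_right h10 (by positivity)
  rwa [div_le_iff₀ hQ0] at h12

theorem pairs_all {P : ℕ → Prop} {l : ℝ} (h : RV P l) {ε : ℝ} (hε : 0 < ε) :
    ∃ K₀ Q₀ : ℕ, ∀ K Q : ℕ, K₀ ≤ K → Q₀ ≤ Q → ({p : ℕ × ℕ | Q ≤ p.1 ∧ p.1 < 2 * Q ∧ p.2 < p.1 ∧
      ε * (((K * Q : ℕ) : ℝ) / p.1) < |ct P (K * Q) p.1 ((p.2 : ℕ) : ℤ) - l * ((K * Q : ℕ) : ℝ) / p.1|}.ncard : ℝ) ≤
        ε * Q ^ 2 := by
  classical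
  obtain ⟨η, hη, N₁, h1⟩ := h.2 (ε ^ 3 / 4) (by positivity)
  refine ⟨⌈1 / η⌉₊ + 1, max N₁ 1, fun K Q hK hQ => ?_⟩
  have hQ1 : N₁ ≤ Q := (le_max_left _ _).trans hQ
  have hQ4 : 1 ≤ Q := (le_max_right _ _).trans hQ
  have hK1 : 1 ≤ K := by omega
  have hKη : 1 / η ≤ K := by
    have h2 := Nat.le_ceil (1 / η)
    have h3 : ((⌈1 / η⌉₊ + 1 : ℕ) : ℝ) ≤ K := by exact_mod_cast hK
    push_cast at h3
    linarith
  have hK0 : (0 : ℝ) < K := by exact_mod_cast hK1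
  have hQ0 : (0 : ℝ) < Q := by exact_mod_cast hQ4
  set N := K * Q with hN
  have hQN : Q ≤ N := Nat.le_mul_of_pos_left Q hK1
  have hNr : (N : ℝ) = K * Q := by rw [hN]; push_cast; ring
  have hN0 : (0 : ℝ) < N := by rw [hNr]; positivity
  have hQη : (Q : ℝ) ≤ η * N := by
    rw [div_le_iff₀ hη] at hKη
    rw [hNr]
    nlinarith
  have h3 := h1 N (hQ1.trans hQN) Q hQ4 hQη
  set B := (Ico Q (2 * Q)).sigma (fun q => (range q).filter (fun a : ℕ =>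
    ε * ((N : ℝ) / q) < |ct P N q ((a : ℕ) : ℤ) - l * N / q|)) with hB
  have e2 : {p : ℕ × ℕ | Q ≤ p.1 ∧ p.1 < 2 * Q ∧ p.2 < p.1 ∧
      ε * ((N : ℝ) / p.1) < |ct P N p.1 ((p.2 : ℕ) : ℤ) - l * (N : ℝ) / p.1|}.ncard ≤ #B := by
    have hsub : {p : ℕ × ℕ | Q ≤ p.1 ∧ p.1 < 2 * Q ∧ p.2 < p.1 ∧
      ε * ((N : ℝ) / p.1) < |ct P N p.1 ((p.2 : ℕ) : ℤ) - l * (N : ℝ) / p.1|} ⊆
        ((B.image (fun x : Σ _ : ℕ, ℕ => (x.1, x.2)) : Finset (ℕ × ℕ)) : Set (ℕ × ℕ)) := by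
      rintro ⟨q, a⟩ ⟨g1, g2, g3, g4⟩
      rw [coe_image]
      refine ⟨⟨q, a⟩, ?_, rfl⟩
      rw [mem_coe, hB, mem_sigma, mem_filter, mem_Ico, mem_range]
      exact ⟨⟨g1, g2⟩, g3, g4⟩
    exact (Set.ncard_le_ncard hsub (Finset.finite_toSet _)).trans
      (by rw [Set.ncard_coe_finset]; exact card_image_le)
  have h5 : (#B : ℝ) * (ε * (K / 2)) ^ 2 ≤ ε ^ 3 / 4 * N ^ 2 := by
    refine le_trans ?_ h3
    have e3 : (#B : ℝ) * (ε * (K / 2)) ^ 2 = ∑ q ∈ Ico Q (2 * Q),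
        ∑ a ∈ range q with ε * ((N : ℝ) / q) < |ct P N q ((a : ℕ) : ℤ) - l * N / q|, (ε * ((K : ℝ) / 2)) ^ 2 := by
      rw [hB, card_sigma]
      push_cast
      rw [sum_mul]
      apply sum_congr rfl
      intro q _
      rw [sum_const, nsmul_eq_mul]
    rw [e3]
    apply sum_le_sum
    intro q hq
    rw [mem_Ico] at hq
    have hq0 : (0 : ℝ) < q := by exact_mod_cast (by omega : 0 < q)
    have hq2 : (q : ℝ) ≤ 2 * Q := by exact_mod_cast hq.2.le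
    have hKN : (K : ℝ) / 2 ≤ N / q := by
      rw [le_div_iff₀ hq0, hNr]
      nlinarith
    calc ∑ a ∈ range q with ε * ((N : ℝ) / q) < |ct P N q ((a : ℕ) : ℤ) - l * N / q|, (ε * ((K : ℝ) / 2)) ^ 2
        ≤ ∑ a ∈ range q with ε * ((N : ℝ) / q) < |ct P N q ((a : ℕ) : ℤ) - l * N / q|, (ct P N q ((a : ℕ) : ℤ) - l * N / q) ^ 2 := by
          apply sum_le_sum
          intro a ha
          rw [mem_filter] at ha
          rw [← sq_abs (ct P N q ((a : ℕ) : ℤ) - l * N / q)]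
          apply pow_le_pow_left₀ (by positivity)
          exact (mul_le_mul_of_nonneg_left hKN hε.le).trans ha.2.le
      _ ≤ ∑ a ∈ range q, (ct P N q ((a : ℕ) : ℤ) - l * N / q) ^ 2 :=
          sum_le_sum_of_subset_of_nonneg (filter_subset _ _) fun _ _ _ => sq_nonneg _
  have h9 : (#B : ℝ) * (ε * (K / 2)) ^ 2 ≤ (ε * Q ^ 2) * (ε * (K / 2)) ^ 2 := by
    have e4 : (ε * (Q : ℝ) ^ 2) * (ε * (K / 2)) ^ 2 = ε ^ 3 / 4 * N ^ 2 := by rw [hNr]; ring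
    rw [e4]
    exact h5
  have h10 : (#B : ℝ) ≤ ε * Q ^ 2 := le_of_mul_le_mul_right h9 (by positivity)
  have h11 : ({p : ℕ × ℕ | Q ≤ p.1 ∧ p.1 < 2 * Q ∧ p.2 < p.1 ∧
      ε * ((N : ℝ) / p.1) < |ct P N p.1 ((p.2 : ℕ) : ℤ) - l * (N : ℝ) / p.1|}.ncard : ℝ) ≤ #B := by exact_mod_cast e2
  linarith

/-- all integers -/
theorem RV_true : RV (fun _ => True) 1 := by
  have key : ∀ N q : ℕ, ∀ c : ℤ, 1 ≤ q → |ct (fun _ => True) N q c - 1 * N / q| ≤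
      |(fun (_ : ℕ) (_ : ℤ) => (0 : ℝ)) q c| + |(fun (_ : ℕ) (_ : ℤ) => (0 : ℝ)) q c| + (0 / q + 1) := by
    intro N q c hq
    have h := Pool.Agent.Q37.BV.sum_ind 1 N hq c
    rw [Pool.Agent.Q37.BV.sum_Ico_nat N (fun n => Pool.Agent.Q37.BV.ind q c n)] at h
    have e : ct (fun _ => True) N q c = ∑ n ∈ Icc 1 N, Pool.Agent.Q37.BV.ind q c n := by
      rw [ct_eq]
      apply sum_congr rfl
      intro n _
      unfold Pool.Agent.Q37.BV.ind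
      simp
    rw [e, one_mul]
    simpa using h
  constructor
  · intro δ hδ ε hε
    obtain ⟨N3, h3⟩ := lev_le hδ hε
    refine ⟨N3, fun N hN => ?_⟩
    have z : Lev δ 0 N (fun _ _ => 0) := fun Q _ _ a => by simp
    exact Lev_of le_rfl (fun q hq c => key N q c hq) z z (by have := h3 N hN; linarith)
  · intro ε hε
    refine ⟨min 1 (ε / 12), by positivity, 0, fun N _ => ?_⟩
    have z : Var (min 1 (ε / 12)) 0 N (fun _ _ => 0) := fun Q _ _ => by simp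
    have i1 : min 1 (ε / 12) ≤ 1 := min_le_left _ _
    have i2 : min 1 (ε / 12) ≤ ε / 12 := min_le_right _ _
    have i0 : 0 ≤ min 1 (ε / 12) := by positivity
    refine Var_of le_rfl i0 (fun q hq c => key N q c hq) z z ?_
    have h5 : (min 1 (ε / 12)) ^ 2 ≤ ε / 12 := by nlinarith
    have h6 := mul_le_mul_of_nonneg_right h5 (sq_nonneg (N : ℝ))
    nlinarith

/-- the complement -/
theorem RV_not {P Q : ℕ → Prop} {l : ℝ} (hP : RV P l) (h : ∀ n, Q n ↔ ¬ P n) : RV Q (1 - l) :=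
  RV_diff hP RV_true (fun _ _ => trivial) (fun n => by rw [h]; tauto)

end Pool.Agent.Q37.LV
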