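import Pool.Agent.Q37.LV.Win

/-! Laws in residue classes: every family of events with a law in natural density has the same law in the
residue classes, on average over all moduli beyond the square root, and in the mean square up to a small
multiple of the length. -/

set_option autoImplicit false

namespace Pool.Agent.Q37.LV

open Finset Filter Topology Pool.Agent.H499R2.CO Pool.Agent.H499R2.ND Pool.Agent.W38.CR Pool.Agent.Y967.CM Pool.Agent.Q37.BV
  Pool.Agent.Y964.LW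

/-- the discrepancies are small in the mean, with the worst class for every modulus -/
def Lev (δ ε : ℝ) (N : ℕ) (D : ℕ → ℤ → ℝ) : Prop := ∀ Q : ℕ, 1 ≤ Q → (Q : ℝ) ≤ lev δ N → ∀ a : ℕ → ℤ,
  ∑ q ∈ Ico Q (2 * Q), |D q (a q)| ≤ ε * N

/-- the discrepancies are small in the mean square over all classes -/
def Var (η ε : ℝ) (N : ℕ) (D : ℕ → ℤ → ℝ) : Prop := ∀ Q : ℕ, 1 ≤ Q → (Q : ℝ) ≤ η * N →
  ∑ q ∈ Ico Q (2 * Q), ∑ a ∈ range q, (D q ((a : ℕ) : ℤ)) ^ 2 ≤ ε * N ^ 2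

theorem sum_inv_Q {Q : ℕ} (hQ : 1 ≤ Q) {u : ℝ} (hu : 0 ≤ u) : ∑ q ∈ Ico Q (2 * Q), u / (q : ℝ) ≤ u := by
  have hQ0 : (0 : ℝ) < Q := by exact_mod_cast hQ
  calc ∑ q ∈ Ico Q (2 * Q), u / (q : ℝ) ≤ ∑ q ∈ Ico Q (2 * Q), u / Q := by
        apply sum_le_sum
        intro q hq
        rw [mem_Ico] at hq
        exact div_le_div_of_nonneg_left hu hQ0 (by exact_mod_cast hq.1)
    _ = u := by
        rw [sum_const, Nat.card_Ico, nsmul_eq_mul, show 2 * Q - Q = Q by omega]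
        field_simp

theorem S1_add {Q : ℕ} (hQ : 1 ≤ Q) {D D1 D2 : ℕ → ℤ → ℝ} {u : ℝ} (hu : 0 ≤ u)
    (h : ∀ q : ℕ, 1 ≤ q → ∀ a : ℤ, |D q a| ≤ |D1 q a| + |D2 q a| + (u / q + 1)) (a : ℕ → ℤ) :
    ∑ q ∈ Ico Q (2 * Q), |D q (a q)| ≤ ∑ q ∈ Ico Q (2 * Q), |D1 q (a q)| + ∑ q ∈ Ico Q (2 * Q), |D2 q (a q)| + (u + Q) := by
  calc ∑ q ∈ Ico Q (2 * Q), |D q (a q)| ≤ ∑ q ∈ Ico Q (2 * Q), (|D1 q (a q)| + |D2 q (a q)| + (u / q + 1)) := by
        apply sum_le_sum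
        intro q hq
        rw [mem_Ico] at hq
        exact h q (by omega) _
    _ = ∑ q ∈ Ico Q (2 * Q), |D1 q (a q)| + ∑ q ∈ Ico Q (2 * Q), |D2 q (a q)| + (∑ q ∈ Ico Q (2 * Q), u / (q : ℝ) + Q) := by
        rw [sum_add_distrib, sum_add_distrib, sum_add_distrib, sum_const, Nat.card_Ico, nsmul_eq_mul, mul_one,
          show 2 * Q - Q = Q by omega]
    _ ≤ _ := by
        have := sum_inv_Q hQ hu
        linarith

theorem S2_add {Q : ℕ} (hQ : 1 ≤ Q) {D D1 D2 : ℕ → ℤ → ℝ} {u : ℝ} (hu : 0 ≤ u)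
    (h : ∀ q : ℕ, 1 ≤ q → ∀ a : ℤ, |D q a| ≤ |D1 q a| + |D2 q a| + (u / q + 1)) :
    ∑ q ∈ Ico Q (2 * Q), ∑ a ∈ range q, (D q ((a : ℕ) : ℤ)) ^ 2 ≤
      3 * ∑ q ∈ Ico Q (2 * Q), ∑ a ∈ range q, (D1 q ((a : ℕ) : ℤ)) ^ 2 +
      3 * ∑ q ∈ Ico Q (2 * Q), ∑ a ∈ range q, (D2 q ((a : ℕ) : ℤ)) ^ 2 + 3 * (2 * u ^ 2 + 4 * Q ^ 2) := by
  calc ∑ q ∈ Ico Q (2 * Q), ∑ a ∈ range q, (D q ((a : ℕ) : ℤ)) ^ 2 ≤
      ∑ q ∈ Ico Q (2 * Q), ∑ a ∈ range q, (3 * (D1 q ((a : ℕ) : ℤ)) ^ 2 + 3 * (D2 q ((a : ℕ) : ℤ)) ^ 2 +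
        3 * (u / q + 1) ^ 2) := by
        apply sum_le_sum
        intro q hq
        apply sum_le_sum
        intro a _
        rw [mem_Ico] at hq
        have hq0 : (0 : ℝ) < q := by exact_mod_cast (by omega : 0 < q)
        have h1 := h q (by omega) ((a : ℕ) : ℤ)
        have h2 : 0 ≤ u / (q : ℝ) := by positivity
        rw [← sq_abs (D q ((a : ℕ) : ℤ)), ← sq_abs (D1 q ((a : ℕ) : ℤ)), ← sq_abs (D2 q ((a : ℕ) : ℤ))]
        have h3 := pow_le_pow_left₀ (abs_nonneg _) h1 2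
        refine h3.trans ?_
        nlinarith [sq_nonneg (|D1 q ((a : ℕ) : ℤ)| - |D2 q ((a : ℕ) : ℤ)|),
          sq_nonneg (|D1 q ((a : ℕ) : ℤ)| - (u / q + 1)), sq_nonneg (|D2 q ((a : ℕ) : ℤ)| - (u / q + 1))]
    _ = 3 * ∑ q ∈ Ico Q (2 * Q), ∑ a ∈ range q, (D1 q ((a : ℕ) : ℤ)) ^ 2 +
      3 * ∑ q ∈ Ico Q (2 * Q), ∑ a ∈ range q, (D2 q ((a : ℕ) : ℤ)) ^ 2 +
      3 * ∑ q ∈ Ico Q (2 * Q), (q : ℝ) * (u / q + 1) ^ 2 := by
        rw [mul_sum, mul_sum, mul_sum, ← sum_add_distrib, ← sum_add_distrib]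
        apply sum_congr rfl
        intro q _
        rw [sum_add_distrib, sum_add_distrib, ← mul_sum, ← mul_sum, sum_const, card_range, nsmul_eq_mul]
        ring
    _ ≤ _ := by
        have h1 : ∑ q ∈ Ico Q (2 * Q), (q : ℝ) * (u / q + 1) ^ 2 ≤ ∑ q ∈ Ico Q (2 * Q), (2 * u ^ 2 / q + 4 * Q) := by
          apply sum_le_sum
          intro q hq
          rw [mem_Ico] at hq
          have hq0 : (0 : ℝ) < q := by exact_mod_cast (by omega : 0 < q)
          have hq2 : (q : ℝ) ≤ 2 * Q := by exact_mod_cast hq.2.le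
          have e1 : (q : ℝ) * (u / q + 1) ^ 2 = u ^ 2 / q + 2 * u + q := by field_simp; ring
          have e2 : 2 * u ≤ u ^ 2 / q + q := by
            have e3 : u ^ 2 / q + q - 2 * u = (u - q) ^ 2 / q := by field_simp; ring
            have e4 : 0 ≤ (u - q) ^ 2 / q := by positivity
            linarith
          have e5 : 2 * u ^ 2 / (q : ℝ) = u ^ 2 / q + u ^ 2 / q := by ring
          rw [e1, e5]
          linarith
        have h2 : ∑ q ∈ Ico Q (2 * Q), (2 * u ^ 2 / q + 4 * (Q : ℝ)) ≤ 2 * u ^ 2 + 4 * Q ^ 2 := by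
          rw [sum_add_distrib, sum_const, Nat.card_Ico, nsmul_eq_mul, show 2 * Q - Q = Q by omega]
          have := sum_inv_Q hQ (show 0 ≤ 2 * u ^ 2 by positivity)
          nlinarith
        linarith

/-- the property is constant on coalescing trajectories above the height `R` -/
def Same (R : ℕ) (P : ℕ → Prop) : Prop := ∀ (j : ℕ) (x y : ℕ), 1 ≤ x → 1 ≤ y →
  (Tz 1)^[j] (x : ℤ) = (Tz 1)^[j] (y : ℤ) → oc 1 j (x : ℤ) = oc 1 j (y : ℤ) → (R : ℤ) < (Tz 1)^[j] (x : ℤ) →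
  (P x → P y)

theorem WinC_mono {τ τ' : ℝ} {F : ℤ → ℝ} (h : τ' ≤ τ) (hF : WinC τ F) : WinC τ' F :=
  ⟨hF.1, fun T m hT => hF.2 T m (hT.trans h)⟩

theorem ct_one (P : ℕ → Prop) (M : ℕ) : ct P M 1 0 = cnt P M := by
  unfold ct cnt
  congr 2
  ext n
  simp only [Set.mem_ofPred_eq]
  constructor
  · rintro ⟨h1, h2, _, h3⟩; exact ⟨h1, h2, h3⟩
  · rintro ⟨h1, h2, h3⟩; exact ⟨h1, h2, by simp [Int.modEq_iff_dvd], h3⟩

/-- the shift is small -/
theorem small_shift (R : ℕ) {μ : ℝ} (hμ : 0 < μ) : ∃ N₀ : ℕ, ∀ N : ℕ, N₀ ≤ N → 1 ≤ N ∧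
    (⌈(R : ℝ) * Real.exp (Real.log N / 8)⌉₊ : ℝ) ≤ μ * N := by
  have tl : Tendsto (fun N : ℕ => Real.log N) atTop atTop :=
    Real.tendsto_log_atTop.comp tendsto_natCast_atTop_atTop
  obtain ⟨N₀, h⟩ := eventually_atTop.1 ((eventually_ge_atTop 1).and
    (tl.eventually_ge_atTop (8 / 7 * Real.log ((R + 1) / μ))))
  refine ⟨N₀, fun N hN => ?_⟩
  obtain ⟨h1, h2⟩ := h N hN
  refine ⟨h1, ?_⟩
  have hN0 : (0 : ℝ) < N := by exact_mod_cast h1
  set x := Real.log N with hx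
  have eN : (N : ℝ) = Real.exp x := (Real.exp_log hN0).symm
  have hx0 : 0 ≤ x := Real.log_natCast_nonneg N
  have h3 := Nat.ceil_lt_add_one (show 0 ≤ (R : ℝ) * Real.exp (x / 8) by positivity)
  have h4 : (1 : ℝ) ≤ Real.exp (x / 8) := Real.one_le_exp (by positivity)
  have h5 : (R + 1) / μ ≤ Real.exp (7 * x / 8) := by
    rw [← Real.log_le_iff_le_exp (by positivity)]
    linarith
  rw [div_le_iff₀ hμ] at h5
  have h6 : Real.exp (7 * x / 8) * Real.exp (x / 8) = N := by rw [← Real.exp_add, eN]; congr 1; ring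
  have h7 : (R + 1) * Real.exp (x / 8) ≤ (Real.exp (7 * x / 8) * μ) * Real.exp (x / 8) :=
    mul_le_mul_of_nonneg_right h5 (by positivity)
  have h8 : (Real.exp (7 * x / 8) * μ) * Real.exp (x / 8) = μ * N := by rw [← h6]; ring
  have h9 : (R + 1) * Real.exp (x / 8) = R * Real.exp (x / 8) + Real.exp (x / 8) := by ring
  linarith

/-- the level is below any multiple of the length -/
theorem lev_le {δ : ℝ} (hδ : 0 < δ) {μ : ℝ} (hμ : 0 < μ) : ∃ N₀ : ℕ, ∀ N : ℕ, N₀ ≤ N → lev δ N ≤ μ * N := by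
  have tl : Tendsto (fun N : ℕ => Real.log N) atTop atTop :=
    Real.tendsto_log_atTop.comp tendsto_natCast_atTop_atTop
  obtain ⟨N₀, h⟩ := eventually_atTop.1 ((eventually_ge_atTop 1).and
    (tl.eventually_ge_atTop (max 16 (4 * Real.log (1 / μ)))))
  refine ⟨N₀, fun N hN => ?_⟩
  obtain ⟨h1, h2⟩ := h N hN
  have hN0 : (0 : ℝ) < N := by exact_mod_cast h1
  set x := Real.log N with hx
  have eN : (N : ℝ) = Real.exp x := (Real.exp_log hN0).symm
  have hx16 : 16 ≤ x := (le_max_left _ _).trans h2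
  have hxμ : 4 * Real.log (1 / μ) ≤ x := (le_max_right _ _).trans h2
  have esq : √ (N : ℝ) = Real.exp (x / 2) := by rw [eN, ← Real.exp_half]
  have hρ1 : x ^ (1 / 2 - δ) ≤ x / 4 := by
    calc x ^ (1 / 2 - δ) ≤ x ^ (1 / 2 : ℝ) := Real.rpow_le_rpow_of_exponent_le (by linarith) (by linarith)
      _ = √ x := by rw [← Real.sqrt_eq_rpow]
      _ ≤ x / 4 := by
          rw [Real.sqrt_le_left (by linarith)]
          nlinarith
  unfold lev
  rw [← hx, esq, ← Real.exp_add]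
  have h3 : 1 / μ ≤ Real.exp (x / 4) := by
    rw [← Real.log_le_iff_le_exp (by positivity)]; linarith
  have h4 : Real.exp (x / 2 + x ^ (1 / 2 - δ)) ≤ Real.exp (3 * x / 4) := Real.exp_le_exp.2 (by linarith)
  rw [div_le_iff₀ hμ] at h3
  have h5 : Real.exp (3 * x / 4) * Real.exp (x / 4) = N := by rw [← Real.exp_add, eN]; congr 1; ring
  have h6 := mul_le_mul_of_nonneg_left h3 (Real.exp_pos (3 * x / 4)).le
  have h7 : Real.exp (3 * x / 4) * (Real.exp (x / 4) * μ) = μ * N := by rw [← h5]; ring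
  rw [h7, mul_one] at h6
  exact h4.trans h6

/-- THE LEVEL OF DISTRIBUTION, fixed events -/
theorem fix_lev (R : ℕ) {δ : ℝ} (hδ : 0 < δ) {ε : ℝ} (hε : 0 < ε) : ∃ N₀ : ℕ, ∀ N : ℕ, N₀ ≤ N →
    ∀ P : ℕ → Prop, Same R P → ∀ l : ℝ, |cnt P N - l * N| ≤ ε / 4 * N →
    Lev δ ε N (fun q a => ct P N q a - l * N / q) := by
  obtain ⟨N1, h1⟩ := level_genC hδ (show 0 < ε / 4 by positivity)
  obtain ⟨N2, h2⟩ := small_shift R (show 0 < min 1 (ε / 8) by positivity)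
  obtain ⟨N3, h3⟩ := lev_le hδ (show 0 < ε / 4 by positivity)
  refine ⟨max N1 (max N2 N3), fun N hN P hP l hl Q hQ hQl a => ?_⟩
  have g1 := h1 N ((le_max_left _ _).trans hN)
  obtain ⟨hN1, g2⟩ := h2 N (((le_max_left _ _).trans (le_max_right _ _)).trans hN)
  have g3 := h3 N (((le_max_right _ _).trans (le_max_right _ _)).trans hN)
  have hN0 : (0 : ℝ) < N := by exact_mod_cast hN1
  set X : ℕ := ⌈(R : ℝ) * Real.exp (Real.log N / 8)⌉₊ with hX
  have hXN : X ≤ N := by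
    have : (X : ℝ) ≤ N := g2.trans (by
      calc min 1 (ε / 8) * (N : ℝ) ≤ 1 * N := mul_le_mul_of_nonneg_right (min_le_left _ _) hN0.le
        _ = N := one_mul _)
    exact_mod_cast this
  have hXε : (X : ℝ) ≤ ε / 8 * N := g2.trans (mul_le_mul_of_nonneg_right (min_le_right _ _) hN0.le)
  have hwin := FE_win (R := R) (P := P) hP (τ := Real.exp (Real.log N / 8)) (X := X) (Nat.le_ceil _)
  have g4 := g1 (FE P X) hwin Q hQ hQl (N - X) (by omega) (fun q => a q - X)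
  have g5 := S1_add hQ (D := fun q a => ct P N q a - l * N / q) (D1 := fun q a => dF (FE P X) (N - X) q (a - X))
    (D2 := fun q _ => (cnt P N - l * N) / q) (u := 2 * X) (by positivity) (fun q hq a => by
      have h6 := ct_dF P hXN hq a
      have e : ct P N q a - l * N / q = (ct P N q a - ct P N 1 0 / q) + (cnt P N - l * N) / q := by
        rw [ct_one]; ring
      rw [e]
      refine (abs_add_le _ _).trans ?_
      linarith) a
  have g6 : ∑ q ∈ Ico Q (2 * Q), |(cnt P N - l * N) / (q : ℝ)| ≤ ε / 4 * N := by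
    calc ∑ q ∈ Ico Q (2 * Q), |(cnt P N - l * N) / (q : ℝ)| = ∑ q ∈ Ico Q (2 * Q), |cnt P N - l * N| / (q : ℝ) := by
          apply sum_congr rfl; intro q _; rw [abs_div, abs_of_nonneg (Nat.cast_nonneg q : (0 : ℝ) ≤ q)]
      _ ≤ |cnt P N - l * N| := sum_inv_Q hQ (abs_nonneg _)
      _ ≤ _ := hl
  simp only at g5 g4 ⊢
  linarith

/-- THE MEAN SQUARE, fixed events -/
theorem fix_var (R : ℕ) {ε : ℝ} (hε : 0 < ε) : ∃ η : ℝ, 0 < η ∧ ∃ μ : ℝ, 0 < μ ∧ ∃ N₀ : ℕ, ∀ N : ℕ, N₀ ≤ N →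
    ∀ P : ℕ → Prop, Same R P → ∀ l : ℝ, |cnt P N - l * N| ≤ μ * N →
    Var η ε N (fun q a => ct P N q a - l * N / q) := by
  obtain ⟨N1, h1⟩ := bdhC (show 0 < ε / 15 by positivity)
  -- constants
  set μ : ℝ := min 1 (ε / 15) with hμ
  have hμ0 : 0 < μ := by positivity
  have hμ1 : μ ≤ 1 := min_le_left _ _
  have hμε : μ ≤ ε / 15 := min_le_right _ _
  set η : ℝ := min 1 (ε / 4500) with hη
  have hη0 : 0 < η := by positivity
  have hη1 : η ≤ 1 := min_le_left _ _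
  have hηε : η ≤ ε / 4500 := min_le_right _ _
  set ν : ℝ := min (1 / 2) (ε / 120) with hν
  have hν0 : 0 < ν := by positivity
  have hν1 : ν ≤ 1 / 2 := min_le_left _ _
  have hνε : ν ≤ ε / 120 := min_le_right _ _
  obtain ⟨N2, h2⟩ := small_shift R hν0
  refine ⟨η, hη0, μ, hμ0, max (2 * N1) N2, fun N hN P hP l hl Q hQ hQl => ?_⟩
  obtain ⟨hN1, g2⟩ := h2 N ((le_max_right _ _).trans hN)
  have hNN1 : 2 * N1 ≤ N := (le_max_left _ _).trans hN
  have hN0 : (0 : ℝ) < N := by exact_mod_cast hN1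
  set X : ℕ := ⌈(R : ℝ) * Real.exp (Real.log N / 8)⌉₊ with hX
  have hX2 : (X : ℝ) ≤ N / 2 := g2.trans (by nlinarith)
  have hX2' : 2 * X ≤ N := by
    have : (2 : ℝ) * X ≤ N := by linarith
    exact_mod_cast this
  have hXN : X ≤ N := by omega
  have hX0 : (0 : ℝ) ≤ X := Nat.cast_nonneg _
  have hwin := FE_win (R := R) (P := P) hP (τ := Real.exp (Real.log N / 8)) (X := X) (Nat.le_ceil _)
  have hwin' : WinC (Real.exp (Real.log ((N - X : ℕ) : ℝ) / 8)) (FE P X) := by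
    apply WinC_mono _ hwin
    apply Real.exp_le_exp.2
    have h3 : Real.log ((N - X : ℕ) : ℝ) ≤ Real.log N := by
      apply Real.log_le_log
      · exact_mod_cast (by omega : 0 < N - X)
      · exact_mod_cast Nat.sub_le N X
    linarith
  have g4 := h1 (N - X) (by omega) (FE P X) hwin' Q hQ
  -- the shift of the classes
  have g4' : ∑ q ∈ Ico Q (2 * Q), ∑ a ∈ range q, (dF (FE P X) (N - X) q (((a : ℕ) : ℤ) - X)) ^ 2 =
      ∑ q ∈ Ico Q (2 * Q), ∑ a ∈ range q, (dF (FE P X) (N - X) q ((a : ℕ) : ℤ)) ^ 2 := by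
    apply sum_congr rfl
    intro q hq
    rw [mem_Ico] at hq
    have hq0 : (0 : ℤ) < q := by exact_mod_cast (by omega : 0 < q)
    have hper : ∀ b c : ℤ, (q : ℤ) ∣ b - c → dF (FE P X) (N - X) q b = dF (FE P X) (N - X) q c := by
      intro b c hbc
      unfold dF
      apply sum_congr rfl
      intro n _
      congr 1
      unfold bal ind
      have h3 : (q : ℤ) ∣ n - b ↔ (q : ℤ) ∣ n - c := by
        constructor
        · intro h; have := dvd_add h hbc; rwa [show n - b + (b - c) = n - c by ring] at this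
        · intro h; have := dvd_sub h hbc; rwa [show n - c - (b - c) = n - b by ring] at this
      simp only [h3]
    refine sum_nbij' (fun a => (((a : ℕ) : ℤ) - X) % q |>.toNat) (fun a => (((a : ℕ) : ℤ) + X) % q |>.toNat) ?_ ?_ ?_ ?_ ?_
    · intro a ha
      rw [mem_range] at ha ⊢
      have h3 := Int.emod_lt_of_pos (((a : ℕ) : ℤ) - X) hq0
      have h4 := Int.emod_nonneg (((a : ℕ) : ℤ) - X) hq0.ne'
      omega
    · intro a ha
      rw [mem_range] at ha ⊢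
      have h3 := Int.emod_lt_of_pos (((a : ℕ) : ℤ) + X) hq0
      have h4 := Int.emod_nonneg (((a : ℕ) : ℤ) + X) hq0.ne'
      omega
    · intro a ha
      rw [mem_range] at ha
      have h4 := Int.emod_nonneg (((a : ℕ) : ℤ) - X) hq0.ne'
      show ((((((((a : ℕ) : ℤ) - X) % q).toNat : ℕ) : ℤ) + X) % q).toNat = a
      rw [Int.toNat_of_nonneg h4, Int.emod_add_emod, sub_add_cancel,
        Int.emod_eq_of_lt (by positivity) (by exact_mod_cast ha), Int.toNat_natCast]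
    · intro a ha
      rw [mem_range] at ha
      have h4 := Int.emod_nonneg (((a : ℕ) : ℤ) + X) hq0.ne'
      show ((((((((a : ℕ) : ℤ) + X) % q).toNat : ℕ) : ℤ) - X) % q).toNat = a
      rw [Int.toNat_of_nonneg h4, Int.emod_sub_emod, add_sub_cancel_right,
        Int.emod_eq_of_lt (by positivity) (by exact_mod_cast ha), Int.toNat_natCast]
    · intro a ha
      rw [mem_range] at ha
      have h4 := Int.emod_nonneg (((a : ℕ) : ℤ) - X) hq0.ne'
      congr 1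
      apply hper
      show (q : ℤ) ∣ (((a : ℕ) : ℤ) - X) - (((((a : ℕ) : ℤ) - X) % q).toNat : ℤ)
      rw [Int.toNat_of_nonneg h4]
      exact Int.dvd_self_sub_emod
  have g5 := S2_add hQ (D := fun q a => ct P N q a - l * N / q) (D1 := fun q a => dF (FE P X) (N - X) q (a - X))
    (D2 := fun q _ => (cnt P N - l * N) / q) (u := 2 * X) (by positivity) (fun q hq a => by
      have h6 := ct_dF P hXN hq a
      have e : ct P N q a - l * N / q = (ct P N q a - ct P N 1 0 / q) + (cnt P N - l * N) / q := by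
        rw [ct_one]; ring
      rw [e]
      refine (abs_add_le _ _).trans ?_
      linarith)
  have g6 : ∑ q ∈ Ico Q (2 * Q), ∑ a ∈ range q, ((cnt P N - l * N) / (q : ℝ)) ^ 2 ≤ (μ * N) ^ 2 := by
    calc ∑ q ∈ Ico Q (2 * Q), ∑ a ∈ range q, ((cnt P N - l * N) / (q : ℝ)) ^ 2 =
          ∑ q ∈ Ico Q (2 * Q), (cnt P N - l * N) ^ 2 / (q : ℝ) := by
          apply sum_congr rfl
          intro q hq
          rw [mem_Ico] at hq
          have hq0 : (0 : ℝ) < q := by exact_mod_cast (by omega : 0 < q)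
          rw [sum_const, card_range, nsmul_eq_mul]
          field_simp
      _ ≤ (cnt P N - l * N) ^ 2 := sum_inv_Q hQ (sq_nonneg _)
      _ ≤ _ := by
          rw [← sq_abs]
          exact pow_le_pow_left₀ (abs_nonneg _) hl 2
  have hNX : ((N - X : ℕ) : ℝ) ≤ N := by exact_mod_cast Nat.sub_le N X
  have hNX0 : (0 : ℝ) ≤ ((N - X : ℕ) : ℝ) := Nat.cast_nonneg _
  have hQ0 : (0 : ℝ) < Q := by exact_mod_cast hQ
  have g7 : ε / 15 * ((N - X : ℕ) : ℝ) ^ 2 + 288 * Q * ((N - X : ℕ) : ℝ) ≤ ε / 15 * N ^ 2 + 288 * Q * N := by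
    have h3 : ((N - X : ℕ) : ℝ) ^ 2 ≤ N ^ 2 := pow_le_pow_left₀ hNX0 hNX 2
    have h4 := mul_le_mul_of_nonneg_left h3 (show 0 ≤ ε / 15 by positivity)
    have h5 := mul_le_mul_of_nonneg_left hNX (show 0 ≤ 288 * (Q : ℝ) by positivity)
    linarith
  rw [← g4'] at g4
  simp only at g5 ⊢
  -- the pieces
  have p1 : (Q : ℝ) * N ≤ ε / 4500 * N ^ 2 := by
    calc (Q : ℝ) * N ≤ (η * N) * N := mul_le_mul_of_nonneg_right hQl hN0.le
      _ ≤ (ε / 4500 * N) * N := by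
          apply mul_le_mul_of_nonneg_right _ hN0.le
          exact mul_le_mul_of_nonneg_right hηε hN0.le
      _ = _ := by ring
  have p2 : (Q : ℝ) ^ 2 ≤ ε / 4500 * N ^ 2 := by
    calc (Q : ℝ) ^ 2 = Q * Q := by ring
      _ ≤ Q * (1 * N) := mul_le_mul_of_nonneg_left (hQl.trans (mul_le_mul_of_nonneg_right hη1 hN0.le)) hQ0.le
      _ = Q * N := by ring
      _ ≤ _ := p1
  have p3 : (μ * N) ^ 2 ≤ ε / 15 * N ^ 2 := by
    rw [mul_pow]
    apply mul_le_mul_of_nonneg_right _ (by positivity)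
    calc μ ^ 2 = μ * μ := by ring
      _ ≤ μ * 1 := mul_le_mul_of_nonneg_left hμ1 hμ0.le
      _ ≤ _ := by rw [mul_one]; exact hμε
  have p4 : (2 * (X : ℝ)) ^ 2 ≤ ε / 30 * N ^ 2 := by
    have h3 : (X : ℝ) ^ 2 ≤ (ν * N) ^ 2 := pow_le_pow_left₀ hX0 g2 2
    have h4 : ν ^ 2 ≤ ε / 120 := by
      calc ν ^ 2 = ν * ν := by ring
        _ ≤ ν * 1 := mul_le_mul_of_nonneg_left (by linarith) hν0.le
        _ ≤ _ := by rw [mul_one]; exact hνε
    calc (2 * (X : ℝ)) ^ 2 = 4 * (X : ℝ) ^ 2 := by ring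
      _ ≤ 4 * (ν * N) ^ 2 := by linarith
      _ = 4 * (ν ^ 2 * N ^ 2) := by ring
      _ ≤ 4 * (ε / 120 * N ^ 2) := by
          have := mul_le_mul_of_nonneg_right h4 (sq_nonneg (N : ℝ))
          linarith
      _ = _ := by ring
  have hεN : 0 < ε * (N : ℝ) ^ 2 := by positivity
  nlinarith

end Pool.Agent.Q37.LV
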