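import Pool.Agent.Q37.BV.Bdh

/-! The level of distribution and the variance, for functions which are constant on windows above all
points outside a small set of classes modulo small powers of two. -/

set_option autoImplicit false

namespace Pool.Agent.Q37.LV

open Finset Filter Topology Pool.Agent.Helper112 Pool.Agent.H499R2.CO Pool.Agent.W38.CR Pool.Agent.Y967.CM Pool.Agent.Q37.BV

/-- `F` is constant on the windows above the good points, for the powers `2 ^ T ≤ τ` -/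
def WinC (τ : ℝ) (F : ℤ → ℝ) : Prop := (∀ n, 0 ≤ F n ∧ F n ≤ 1) ∧ ∀ (T m : ℕ), (2 : ℝ) ^ T ≤ τ →
  ∃ a b : ℤ, a % 2 = 1 ∧ ∀ n : ℤ, 1 ≤ n →
  ¬ WB T m (a * n + b) → ∀ i : ℤ, 0 ≤ i → i < 2 ^ (2 ^ m - 1) → F (n + i) = F n

theorem level_genC {δ : ℝ} (hδ : 0 < δ) {ε : ℝ} (hε : 0 < ε) : ∃ N₀ : ℕ,
    ∀ N : ℕ, N₀ ≤ N → ∀ F : ℤ → ℝ, WinC (Real.exp (Real.log N / 8)) F → ∀ Q : ℕ, 1 ≤ Q → (Q : ℝ) ≤ lev δ N → ∀ M : ℕ, M ≤ N → ∀ a : ℕ → ℤ,
      ∑ q ∈ Ico Q (2 * Q), |dF F M q (a q)| ≤ ε * N := by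
  classical
  obtain ⟨J, hJ⟩ := pow_unbounded_of_one_lt (48 / ε) (show (1 : ℝ) < 2 by norm_num)
  set η : ℝ := ε / (8 * (2 ^ J + 3)) with hη
  have hη0 : 0 < η := by positivity
  obtain ⟨m0, hm0⟩ := phase hη0
  have hgr := log_nat_tendsto.eventually (growth (Real.log (12960 / ε ^ 2)) hδ)
  have hll : Tendsto (fun N : ℕ => Real.log (Real.log N)) atTop atTop :=
    Real.tendsto_log_atTop.comp log_nat_tendsto
  obtain ⟨N₀, hN₀⟩ := eventually_atTop.1 (((choose_RR (show (0 : ℝ) < 1 / 8 by norm_num) m0).and hgr).and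
    ((eventually_ge_atTop 1).and ((log_nat_tendsto.eventually_ge_atTop (max 16 (4 * Real.log (80 / ε)))).and
      (hll.eventually_ge_atTop 1))))
  refine ⟨N₀, fun N hN F hWin Q hQ hQl M hM a => ?_⟩
  obtain ⟨⟨⟨m, hm, hm1, hm2⟩, hg⟩, hN1, hx, hlx⟩ := hN₀ N hN
  obtain ⟨T, hT, hav⟩ := hm0 m hm
  set x := Real.log N with hxdef
  have hx16 : 16 ≤ x := (le_max_left _ _).trans hx
  have hxε : 4 * Real.log (80 / ε) ≤ x := (le_max_right _ _).trans hx
  have hNr : (1 : ℝ) ≤ N := by exact_mod_cast hN1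
  have hN0 : (0 : ℝ) < N := by linarith
  have eN : (N : ℝ) = Real.exp x := (Real.exp_log hN0).symm
  have esq : √ (N : ℝ) = Real.exp (x / 2) := by
    rw [eN, ← Real.exp_half]
  set ρ := x ^ (1 / 2 - δ) with hρ
  have hρ0 : 0 ≤ ρ := by positivity
  have hρ1 : ρ ≤ x / 4 := by
    calc ρ ≤ x ^ (1 / 2 : ℝ) := Real.rpow_le_rpow_of_exponent_le (by linarith) (by linarith)
      _ = √ x := by rw [← Real.sqrt_eq_rpow]
      _ ≤ x / 4 := by
          rw [Real.sqrt_le_left (by linarith)]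
          nlinarith
  have hQe : (Q : ℝ) ≤ Real.exp (x / 2 + ρ) := by
    unfold lev at hQl
    rw [esq, ← Real.exp_add] at hQl
    exact hQl
  have hQ34 : (Q : ℝ) ≤ Real.exp (3 * x / 4) := hQe.trans (Real.exp_le_exp.2 (by linarith))
  have hQ1 : (1 : ℝ) ≤ Q := by exact_mod_cast hQ
  have hMN : (M : ℝ) ≤ N := by exact_mod_cast hM
  have hM0 : (0 : ℝ) ≤ M := Nat.cast_nonneg _
  -- the windows
  set r := √ x / (Real.log x) ^ 17 with hr
  have hRR : RR N = Real.exp r := rfl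
  have hRRm := hm2 N (by
    rw [Real.sqrt_le_left hN0.le]; nlinarith) le_rfl
  set H : ℕ := ⌊RR N⌋₊ + 1 with hH
  have hHge : Real.exp r ≤ H := by
    rw [hH, ← hRR]; push_cast; exact (Nat.lt_floor_add_one _).le
  have hHle : (H : ℝ) ≤ Real.exp r + 1 := by
    rw [hH, ← hRR]; push_cast
    have := Nat.floor_le (show 0 ≤ RR N by rw [hRR]; positivity)
    linarith
  have hHm : H ≤ 2 ^ (2 ^ m - 1) := by
    have h1 : ⌊RR N⌋₊ < 2 ^ (2 ^ m - 1) := by
      rw [Nat.floor_lt (by rw [hRR]; positivity)]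
      push_cast
      exact hRRm
    omega
  have hr4 : r ≤ x / 4 := by
    rw [hr, div_le_iff₀ (by positivity)]
    have h1 : (1 : ℝ) ≤ Real.log x ^ 17 := one_le_pow₀ hlx
    have h2 : √ x ≤ x / 4 := by
      rw [Real.sqrt_le_left (by linarith)]
      nlinarith
    nlinarith
  have hr0 : 0 ≤ r := by positivity
  -- the bits
  have hTx : (T : ℝ) ≤ 1 / 8 * x := by
    have : (T : ℝ) ≤ ((2 * (4 ^ m * m ^ 30) : ℕ) : ℝ) := by exact_mod_cast hT
    linarith
  have h2T : (2 : ℝ) ^ T ≤ Real.exp (x / 8) := by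
    have h1 := two_pow_le hN1 hTx
    rw [Real.rpow_def_of_pos hN0, ← hxdef] at h1
    rwa [show x * (1 / 8) = x / 8 by ring] at h1
  obtain ⟨s, b, hsodd, hW'⟩ := hWin.2 T m h2T
  have hcount : (#{c ∈ range (2 ^ T) | WB T m (s * ((c : ℕ) : ℤ) + b)} : ℝ) ≤ η * 2 ^ T := by
    have h1 := WB_count T m (a := s) hsodd b
    rw [h1, mul_comm]
    exact mul_le_mul_of_nonneg_right hav (by positivity)
  have hcore := core_abs (B := fun n => WB T m (s * n + b)) (fun y k => by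
      have e : s * (y + k * 2 ^ T) + b = (s * y + b) + (s * k) * 2 ^ T := by ring
      simp only [e]
      exact WB_periodic T m _ _) hη0.le hcount M J (H := H) (Q := Q)
    (by omega) hQ a (F := F) hWin.1 (by
      intro n hn hW i hi0 hi
      refine hW' n hn hW i hi0 ?_
      have : (H : ℤ) ≤ 2 ^ (2 ^ m - 1) := by exact_mod_cast hHm
      omega)
  refine hcore.trans ?_
  have hQN : (Q : ℝ) ≤ N := by
    rw [eN]; exact hQ34.trans (Real.exp_le_exp.2 (by linarith))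
  have hQT : (Q : ℝ) * 2 ^ T ≤ N := by
    calc (Q : ℝ) * 2 ^ T ≤ Real.exp (3 * x / 4) * Real.exp (x / 8) :=
          mul_le_mul hQ34 h2T (by positivity) (by positivity)
      _ = Real.exp (3 * x / 4 + x / 8) := by rw [Real.exp_add]
      _ ≤ Real.exp x := Real.exp_le_exp.2 (by linarith)
      _ = N := eN.symm
  have h2TN : (2 : ℝ) ^ T ≤ N := by
    rw [eN]; exact h2T.trans (Real.exp_le_exp.2 (by linarith))
  have t1 : η * (M * 2 ^ J + Q * 2 ^ T) + η * (M + 2 ^ T) ≤ ε / 8 * N := by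
    have h1 : (M : ℝ) * 2 ^ J ≤ N * 2 ^ J := mul_le_mul_of_nonneg_right hMN (by positivity)
    calc η * (M * 2 ^ J + Q * 2 ^ T) + η * (M + 2 ^ T) = η * (M * 2 ^ J + Q * 2 ^ T + M + 2 ^ T) := by ring
      _ ≤ η * (N * 2 ^ J + N + N + N) := mul_le_mul_of_nonneg_left (by linarith) hη0.le
      _ = ε / 8 * N := by rw [hη]; field_simp; ring
  have t2 : 3 * ((M : ℝ) + Q) / 2 ^ J ≤ ε / 8 * N := by
    rw [div_le_iff₀ (by positivity)]
    rw [div_lt_iff₀ hε] at hJ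
    have h1 : 48 * (N : ℝ) ≤ (2 ^ J * ε) * N := mul_le_mul_of_nonneg_right hJ.le hN0.le
    have h2 : ε / 8 * N * 2 ^ J = ((2 ^ J * ε) * N) / 8 := by ring
    rw [h2]
    linarith
  have t3 : 2 * (2 * (H : ℝ) + Q) ≤ ε / 8 * N := by
    have h1 : Real.exp r ≤ Real.exp (3 * x / 4) := Real.exp_le_exp.2 (by linarith)
    have h2 : (1 : ℝ) ≤ Real.exp (3 * x / 4) := Real.one_le_exp (by linarith)
    have h3 : 80 / ε ≤ Real.exp (x / 4) := by
      rw [← Real.log_le_iff_le_exp (by positivity)]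
      linarith
    have h4 : Real.exp (3 * x / 4) * Real.exp (x / 4) = N := by
      rw [← Real.exp_add, eN]; congr 1; ring
    rw [div_le_iff₀ hε] at h3
    have h5 : 0 < Real.exp (3 * x / 4) := Real.exp_pos _
    have h6 : 80 * Real.exp (3 * x / 4) ≤ (Real.exp (x / 4) * ε) * Real.exp (3 * x / 4) :=
      mul_le_mul_of_nonneg_right h3 h5.le
    have h7 : (Real.exp (x / 4) * ε) * Real.exp (3 * x / 4) = ε * N := by rw [← h4]; ring
    rw [h7] at h6
    linarith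
  have t4 : √ (9 * H * (1 + Real.log (2 * Q))) * √ (6 * (M + (2 * Q) ^ 2) * M) / H ≤ ε / 4 * N := by
    have hH0 : (0 : ℝ) < H := lt_of_lt_of_le (Real.exp_pos _) hHge
    rw [div_le_iff₀ hH0]
    have hlogQ : Real.log (2 * Q) ≤ Real.log 2 + 3 * x / 4 := by
      rw [Real.log_mul (by norm_num) (by positivity)]
      have := Real.log_le_log (by linarith) hQ34
      rw [Real.log_exp] at this
      linarith
    have hlogQ0 : 0 ≤ Real.log (2 * Q) := Real.log_nonneg (by linarith)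
    have hl2 := Real.log_two_lt_d9
    have hlog3 : 1 + Real.log (2 * Q) ≤ 3 * x := by linarith
    rw [← Real.sqrt_mul (by positivity)]
    apply Real.sqrt_le_iff.2
    refine ⟨by positivity, ?_⟩
    have hQ2 : (2 * (Q : ℝ)) ^ 2 ≤ 4 * (N * Real.exp (2 * ρ)) := by
      have : (Q : ℝ) ^ 2 ≤ Real.exp (x / 2 + ρ) ^ 2 := pow_le_pow_left₀ (by linarith) hQe 2
      rw [← Real.exp_nat_mul] at this
      rw [eN, ← Real.exp_add]
      have e1 : ((2 : ℕ) : ℝ) * (x / 2 + ρ) = x + 2 * ρ := by push_cast; ring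
      rw [e1] at this
      calc (2 * (Q : ℝ)) ^ 2 = 4 * (Q : ℝ) ^ 2 := by ring
        _ ≤ _ := mul_le_mul_of_nonneg_left this (by norm_num)
    have hM5 : (M : ℝ) + (2 * Q) ^ 2 ≤ 5 * (N * Real.exp (2 * ρ)) := by
      have h1 : (1 : ℝ) ≤ Real.exp (2 * ρ) := Real.one_le_exp (by linarith)
      have h2 : (N : ℝ) * 1 ≤ N * Real.exp (2 * ρ) := mul_le_mul_of_nonneg_left h1 hN0.le
      linarith
    have hkey : 810 * x * Real.exp (2 * ρ) ≤ ε ^ 2 / 16 * H := by
      have hx0 : 0 < x := by linarith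
      have h1 : Real.exp (2 * ρ + Real.log x + Real.log (12960 / ε ^ 2)) ≤ Real.exp r := Real.exp_le_exp.2 hg
      rw [Real.exp_add, Real.exp_add, Real.exp_log hx0, Real.exp_log (by positivity)] at h1
      have h2 := h1.trans hHge
      have h3 : Real.exp (2 * ρ) * x * (12960 / ε ^ 2) * (ε ^ 2 / 16) = 810 * x * Real.exp (2 * ρ) := by
        field_simp; norm_num
      rw [← h3, mul_comm (ε ^ 2 / 16) (H : ℝ)]
      exact mul_le_mul_of_nonneg_right h2 (by positivity)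
    calc 9 * (H : ℝ) * (1 + Real.log (2 * Q)) * (6 * (M + (2 * Q) ^ 2) * M)
        ≤ 9 * (H : ℝ) * (3 * x) * (6 * (5 * (N * Real.exp (2 * ρ))) * N) := by
          apply mul_le_mul
          · exact mul_le_mul_of_nonneg_left hlog3 (by positivity)
          · apply mul_le_mul _ hMN hM0 (by positivity)
            exact mul_le_mul_of_nonneg_left hM5 (by norm_num)
          · positivity
          · positivity
      _ = (810 * x * Real.exp (2 * ρ)) * (H * N ^ 2) := by ring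
      _ ≤ (ε ^ 2 / 16 * H) * (H * N ^ 2) := mul_le_mul_of_nonneg_right hkey (by positivity)
      _ = (ε / 4 * N * H) ^ 2 := by ring
  have hεN : 0 ≤ ε * N := by positivity
  linarith

theorem bdhC {ε : ℝ} (hε : 0 < ε) : ∃ N₀ : ℕ, ∀ N : ℕ, N₀ ≤ N →
    ∀ F : ℤ → ℝ, WinC (Real.exp (Real.log N / 8)) F → ∀ Q : ℕ, 1 ≤ Q →
      ∑ q ∈ Ico Q (2 * Q), ∑ a ∈ range q, (dF F N q ((a : ℕ) : ℤ)) ^ 2 ≤ ε * N ^ 2 + 288 * Q * N := by
  obtain ⟨J, hJ⟩ := pow_unbounded_of_one_lt (72 / ε) (show (1 : ℝ) < 2 by norm_num)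
  set ε' : ℝ := √ (ε / (6 * (2 ^ J) ^ 3)) with hε'
  have hε'0 : 0 < ε' := Real.sqrt_pos.2 (by positivity)
  have hε'2 : ε' ^ 2 = ε / (6 * (2 ^ J) ^ 3) := Real.sq_sqrt (by positivity)
  obtain ⟨N₁, h1⟩ := level_genC (show (0 : ℝ) < 1 / 4 by norm_num) hε'0
  refine ⟨max N₁ (4 ^ J), fun N hN F hF Q hQ => ?_⟩
  have hN1 : N₁ ≤ N := (le_max_left _ _).trans hN
  have hN2 : 4 ^ J ≤ N := (le_max_right _ _).trans hN
  have hN0 : (0 : ℝ) ≤ N := Nat.cast_nonneg _
  have hlev : (2 : ℝ) ^ J ≤ lev (1 / 4) N := by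
    have g1 : (2 : ℝ) ^ J ≤ √ (N : ℝ) := by
      apply Real.le_sqrt_of_sq_le
      rw [← pow_mul, mul_comm, pow_mul]
      norm_num
      exact_mod_cast hN2
    unfold lev
    have g2 : (1 : ℝ) ≤ Real.exp (Real.log N ^ (1 / 2 - 1 / 4 : ℝ)) :=
      Real.one_le_exp (Real.rpow_nonneg (Real.log_natCast_nonneg N) _)
    calc (2 : ℝ) ^ J ≤ √ (N : ℝ) := g1
      _ = √ (N : ℝ) * 1 := (mul_one _).symm
      _ ≤ _ := mul_le_mul_of_nonneg_left g2 (Real.sqrt_nonneg _)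
  set A : ℕ → ℝ := fun d => ∑ h ∈ Ico 1 d with h.Coprime d, ‖BV.FF N F ((h : ℝ) / d)‖ ^ 2 with hA
  have hA0 : ∀ d, 0 ≤ A d := fun d => sum_nonneg fun _ _ => by positivity
  have hls : ∀ D : ℕ, ∑ d ∈ Icc 1 D, A d ≤ 6 * (N + (D : ℝ) ^ 2) * N := by
    intro D
    have g1 := additive_large_sieve N D (fun n => ((F n : ℝ) : ℂ))
    calc ∑ d ∈ Icc 1 D, A d ≤ ∑ f ∈ Icc 1 D, ∑ a ∈ range f with a.Coprime f,
          ‖∑ n ∈ Icc 1 N, ((F n : ℝ) : ℂ) * ee (n * a / f)‖ ^ 2 := by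
          apply sum_le_sum
          intro d _
          simp only [hA]
          have g2 : ∀ h : ℕ, ‖BV.FF N F ((h : ℝ) / d)‖ ^ 2 = ‖∑ n ∈ Icc 1 N, ((F n : ℝ) : ℂ) * ee (n * h / d)‖ ^ 2 := by
            intro h
            unfold BV.FF
            congr 2
            apply sum_congr rfl
            intro n _
            rw [mul_div_assoc]
          rw [sum_congr rfl (fun h _ => g2 h)]
          apply sum_le_sum_of_subset_of_nonneg
          · intro h hh
            rw [mem_filter, mem_Ico] at hh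
            rw [mem_filter, mem_range]
            exact ⟨hh.1.2, hh.2⟩
          · intro _ _ _; positivity
      _ ≤ 6 * (N + (D : ℝ) ^ 2) * ∑ n ∈ Icc 1 N, ‖((F n : ℝ) : ℂ)‖ ^ 2 := g1
      _ ≤ 6 * (N + (D : ℝ) ^ 2) * N := by
          apply mul_le_mul_of_nonneg_left _ (by positivity)
          calc ∑ n ∈ Icc 1 N, ‖((F n : ℝ) : ℂ)‖ ^ 2 ≤ ∑ n ∈ Icc 1 N, (1 : ℝ) := by
                apply sum_le_sum
                intro n _
                rw [Complex.norm_real, Real.norm_eq_abs, abs_of_nonneg (hF.1 n).1]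
                have := hF.1 n
                nlinarith [this.1, this.2]
            _ = N := by rw [sum_const, Nat.card_Icc, nsmul_eq_mul]; simp
  have s1 : ∑ q ∈ Ico Q (2 * Q), ∑ a ∈ range q, (dF F N q ((a : ℕ) : ℤ)) ^ 2 ≤
      ∑ d ∈ Icc 2 (2 * Q), 3 / (d : ℝ) * A d := by
    refine le_trans (le_of_eq ?_) (sum_frac hQ (g := fun x => ‖BV.FF N F x‖ ^ 2) (fun x => by positivity))
    apply sum_congr rfl
    intro q hq
    rw [mem_Ico] at hq
    exact class_parseval (by omega) F N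
  have s2 : ∑ d ∈ Icc 2 (2 * Q), 3 / (d : ℝ) * A d ≤
      3 * ∑ d ∈ Icc 1 (2 ^ J), A d / d + 3 * ∑ d ∈ Icc (2 ^ J) (2 * Q), A d / d := by
    have g0 : ∀ d : ℕ, 0 ≤ A d / d := fun d => div_nonneg (hA0 d) (Nat.cast_nonneg _)
    have g1 : ∑ d ∈ Icc 2 (2 * Q), 3 / (d : ℝ) * A d = 3 * ∑ d ∈ Icc 2 (2 * Q), A d / d := by
      rw [mul_sum]
      apply sum_congr rfl
      intro d _
      ring
    have g2 : Icc 2 (2 * Q) ⊆ Icc 1 (2 ^ J) ∪ Icc (2 ^ J) (2 * Q) := by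
      intro d hd
      rw [mem_Icc] at hd
      rw [mem_union, mem_Icc, mem_Icc]
      omega
    have g3 := sum_le_sum_of_subset_of_nonneg (f := fun d : ℕ => A d / d) g2 (fun d _ _ => g0 d)
    have g4 := sum_union_inter (f := fun d : ℕ => A d / d) (s₁ := Icc 1 (2 ^ J)) (s₂ := Icc (2 ^ J) (2 * Q))
    have g5 : 0 ≤ ∑ d ∈ Icc 1 (2 ^ J) ∩ Icc (2 ^ J) (2 * Q), A d / d := sum_nonneg fun d _ => g0 d
    rw [g1]
    linarith
  have s3 : ∑ d ∈ Icc 1 (2 ^ J), A d / d ≤ (2 ^ J) ^ 3 * ε' ^ 2 * N ^ 2 := by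
    calc ∑ d ∈ Icc 1 (2 ^ J), A d / d ≤ ∑ d ∈ Icc 1 (2 ^ J), (2 ^ J) ^ 2 * ε' ^ 2 * (N : ℝ) ^ 2 := by
          apply sum_le_sum
          intro d hd
          rw [mem_Icc] at hd
          have hd0 : (0 : ℝ) < d := by exact_mod_cast hd.1
          have hdJ : (d : ℝ) ≤ 2 ^ J := by exact_mod_cast hd.2
          rw [div_le_iff₀ hd0]
          have g1 : ∀ a : ℤ, |dF F N d a| ≤ ε' * N := by
            intro a
            have g2 := h1 N hN1 F hF d hd.1 (hdJ.trans hlev) N le_rfl (fun _ => a)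
            refine le_trans ?_ g2
            exact single_le_sum (f := fun q => |dF F N q a|) (fun _ _ => abs_nonneg _) (mem_Ico.2 ⟨le_rfl, by omega⟩)
          calc A d ≤ ∑ h ∈ Ico 1 d, ‖BV.FF N F ((h : ℝ) / d)‖ ^ 2 :=
                sum_le_sum_of_subset_of_nonneg (filter_subset _ _) fun _ _ _ => by positivity
            _ ≤ ∑ h ∈ Ico 1 d, (d * (ε' * N)) ^ 2 := by
                apply sum_le_sum
                intro h hh
                exact pow_le_pow_left₀ (norm_nonneg _) (FF_le hd.1 F N hh g1) 2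
            _ = ((d - 1 : ℕ) : ℝ) * (d * (ε' * N)) ^ 2 := by
                rw [sum_const, Nat.card_Ico, nsmul_eq_mul]
            _ ≤ d * (d * (ε' * N)) ^ 2 := by
                apply mul_le_mul_of_nonneg_right _ (by positivity)
                exact_mod_cast Nat.sub_le d 1
            _ = (d ^ 2 * ε' ^ 2 * N ^ 2) * d := by ring
            _ ≤ ((2 ^ J) ^ 2 * ε' ^ 2 * (N : ℝ) ^ 2) * d := by
                apply mul_le_mul_of_nonneg_right _ hd0.le
                apply mul_le_mul_of_nonneg_right _ (by positivity)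
                apply mul_le_mul_of_nonneg_right _ (by positivity)
                exact pow_le_pow_left₀ hd0.le hdJ 2
      _ = (2 ^ J) ^ 3 * ε' ^ 2 * N ^ 2 := by
          rw [sum_const, Nat.card_Icc, nsmul_eq_mul, Nat.add_sub_cancel]
          push_cast
          ring
  have s4 := tail hA0 hls J (2 * Q) (by omega)
  have e1 : (2 ^ J) ^ 3 * ε' ^ 2 * (N : ℝ) ^ 2 = ε / 6 * N ^ 2 := by rw [hε'2]; field_simp
  have e2 : 12 * (N : ℝ) ^ 2 / 2 ^ J ≤ ε / 6 * N ^ 2 := by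
    rw [div_lt_iff₀ hε] at hJ
    rw [div_le_iff₀ (by positivity)]
    have h2 : (72 : ℝ) * N ^ 2 ≤ (2 ^ J * ε) * N ^ 2 := mul_le_mul_of_nonneg_right hJ.le (by positivity)
    have h3 : ε / 6 * (N : ℝ) ^ 2 * 2 ^ J = ((2 ^ J * ε) * N ^ 2) / 6 := by ring
    rw [h3]
    linarith
  push_cast at s4
  linarith

end Pool.Agent.Q37.LV
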