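import Pool.Agent.Q37.LV.Fam

/-! Laws in residue classes at moving thresholds. -/

set_option autoImplicit false

namespace Pool.Agent.Q37.LV

open Finset Filter Topology Pool.Agent.H499R2.CO Pool.Agent.H499R2.ND Pool.Agent.W38.CR Pool.Agent.Y967.CM Pool.Agent.Q37.BV
  Pool.Agent.Y964.LW

/-- `P` has the mean value `l` in residue classes: on average over all moduli up to `lev δ N` (beyond the square
root), whatever the classes, and in the mean square over all classes of all moduli up to a small multiple of `N` -/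
def RV (P : ℕ → Prop) (l : ℝ) : Prop :=
  (∀ δ : ℝ, 0 < δ → ∀ ε : ℝ, 0 < ε → ∃ N₀ : ℕ, ∀ N : ℕ, N₀ ≤ N → Lev δ ε N (fun q a => ct P N q a - l * N / q)) ∧
  (∀ ε : ℝ, 0 < ε → ∃ η : ℝ, 0 < η ∧ ∃ N₀ : ℕ, ∀ N : ℕ, N₀ ≤ N → Var η ε N (fun q a => ct P N q a - l * N / q))

theorem dn_ev {P : ℕ → Prop} {l : ℝ} (h : Dn P l) {ε : ℝ} (hε : 0 < ε) : ∃ N₀ : ℕ, ∀ N : ℕ, N₀ ≤ N →
    |cnt P N - l * N| ≤ ε * N := by
  obtain ⟨N₀, h1⟩ := eventually_atTop.1 (dn_unif h hε 1)
  exact ⟨N₀, fun N hN => h1 N hN N (by omega)⟩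

theorem RV_fix {R : ℕ} {P : ℕ → Prop} (hP : Same R P) {l : ℝ} (h : Dn P l) : RV P l := by
  constructor
  · intro δ hδ ε hε
    obtain ⟨N1, h1⟩ := fix_lev R hδ hε
    obtain ⟨N2, h2⟩ := dn_ev h (show 0 < ε / 4 by positivity)
    exact ⟨max N1 N2, fun N hN => h1 N ((le_max_left _ _).trans hN) P hP l (h2 N ((le_max_right _ _).trans hN))⟩
  · intro ε hε
    obtain ⟨η, hη, μ, hμ, N1, h1⟩ := fix_var R hε
    obtain ⟨N2, h2⟩ := dn_ev h hμ
    exact ⟨η, hη, max N1 N2, fun N hN => h1 N ((le_max_left _ _).trans hN) P hP l (h2 N ((le_max_right _ _).trans hN))⟩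

open Classical in
theorem ct_or {P Q : ℕ → Prop} {y : ℝ} (hy : 0 ≤ y) (M : ℕ) {q : ℕ} (hq : 1 ≤ q) (a : ℤ)
    (h : ∀ n : ℕ, 1 ≤ n → n ≤ M → y < n → P n → Q n) : ct P M q a ≤ ct Q M q a + (y / q + 1) := by
  have hq0 : (0 : ℝ) < q := by exact_mod_cast hq
  have h1 : ∑ n ∈ Icc 1 M, (if (n : ℝ) ≤ y then ind q a n else 0) ≤ y / q + 1 := by
    calc ∑ n ∈ Icc 1 M, (if (n : ℝ) ≤ y then ind q a n else 0) = ∑ n ∈ (Icc 1 M).filter (fun n : ℕ => (n : ℝ) ≤ y), ind q a n := by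
          rw [sum_filter]
      _ ≤ ∑ n ∈ Icc 1 ⌊y⌋₊, ind q a n := by
          apply sum_le_sum_of_subset_of_nonneg
          · intro n hn
            rw [mem_filter, mem_Icc] at hn
            rw [mem_Icc]
            exact ⟨hn.1.1, Nat.le_floor hn.2⟩
          · intro n _ _; exact ind_nonneg _ _ _
      _ = ∑ n ∈ Ico (1 : ℤ) (1 + (⌊y⌋₊ : ℕ)), ind q a n := by rw [sum_Ico_nat ⌊y⌋₊ (fun n => ind q a n)]
      _ ≤ (⌊y⌋₊ : ℝ) / q + 1 := by
          have h2 := (abs_le.1 (sum_ind 1 ⌊y⌋₊ hq a)).2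
          linarith
      _ ≤ y / q + 1 := by
          have := div_le_div_of_nonneg_right (Nat.floor_le hy) hq0.le
          linarith
  rw [ct_eq, ct_eq]
  refine le_trans ?_ (add_le_add_right h1 _)
  rw [← sum_add_distrib]
  apply sum_le_sum
  intro n hn
  rw [mem_Icc] at hn
  unfold ind
  by_cases h2 : (q : ℤ) ∣ (n : ℤ) - a ∧ P n
  · rw [if_pos h2]
    by_cases h3 : (n : ℝ) ≤ y
    · rw [if_pos h3, if_pos h2.1]
      split_ifs <;> norm_num
    · push Not at h3
      rw [if_pos ⟨h2.1, h n hn.1 hn.2 h3 h2.2⟩, if_neg (not_le.2 h3)]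
      norm_num
  · rw [if_neg h2]
    have : (0 : ℝ) ≤ (if (n : ℝ) ≤ y then (if (q : ℤ) ∣ (n : ℤ) - a then 1 else 0) else 0) := by
      split_ifs <;> norm_num
    have h4 : (0 : ℝ) ≤ (if (q : ℤ) ∣ (n : ℤ) - a ∧ Q n then 1 else 0) := by split_ifs <;> norm_num
    linarith

/-- the thresholds vary little -/
theorem thr_var (α σ x : ℝ) (hσ : 0 < σ) {κ : ℝ} (hκ : 0 < κ) : ∃ N₀ : ℕ, ∀ N : ℕ, N₀ ≤ N → 3 ≤ Real.log N ∧ ∀ n : ℕ,
    N / Real.log N ^ 2 < n → n ≤ N → |thr α σ x (Real.log n) - thr α σ x (Real.log N)| ≤ κ * Real.sqrt (Real.log N) := by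
  have tl : Tendsto (fun N : ℕ => Real.log N) atTop atTop :=
    Real.tendsto_log_atTop.comp tendsto_natCast_atTop_atTop
  have t2 : Tendsto (fun L : ℝ => Real.log L / L ^ (1 / 2 : ℝ)) atTop (𝓝 0) :=
    (isLittleO_log_rpow_atTop (by norm_num)).tendsto_div_nhds_zero
  set C : ℝ := 2 * (|α| + |x| * σ) with hC
  have hC0 : 0 ≤ C := by positivity
  have t3 : ∀ᶠ N : ℕ in atTop, C * (Real.log (Real.log N) / (Real.log N) ^ (1 / 2 : ℝ)) < κ := by
    have := (t2.comp tl).const_mul C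
    rw [mul_zero] at this
    exact this.eventually_lt_const hκ
  obtain ⟨N3, hN3⟩ := eventually_atTop.1 (t3.and (tl.eventually_ge_atTop 3))
  refine ⟨max N3 2, fun N hN => ?_⟩
  obtain ⟨g1, g2⟩ := hN3 N ((le_max_left _ _).trans hN)
  have hN2 : 2 ≤ N := (le_max_right _ _).trans hN
  have hN0 : (0 : ℝ) < N := by exact_mod_cast (by omega : 0 < N)
  refine ⟨g2, ?_⟩
  set L := Real.log N with hL
  have hL0 : 0 < L := by linarith
  have hLL : 0 ≤ Real.log L := Real.log_nonneg (by linarith)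
  have hs0 : 0 < Real.sqrt L := Real.sqrt_pos.2 hL0
  intro n h1 h2
  have hn0 : (0 : ℝ) < n := lt_of_le_of_lt (by positivity) h1
  have b1 : L - 2 * Real.log L ≤ Real.log n := by
    have h3 : Real.log (N / L ^ 2) = L - 2 * Real.log L := by
      rw [Real.log_div hN0.ne' (by positivity), Real.log_pow]
      push_cast; ring
    rw [← h3]
    exact Real.log_le_log (by positivity) h1.le
  have b2 : Real.log n ≤ L := Real.log_le_log hn0 (by exact_mod_cast h2)
  have b3 : 0 ≤ Real.log n := Real.log_natCast_nonneg n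
  have b4 : |Real.log n - L| ≤ 2 * Real.log L := by rw [abs_le]; constructor <;> linarith
  have b5 : |Real.sqrt (Real.log n) - Real.sqrt L| ≤ 2 * Real.log L := by
    have h5 : (Real.sqrt (Real.log n) - Real.sqrt L) * (Real.sqrt (Real.log n) + Real.sqrt L) = Real.log n - L := by
      have h6 := Real.sq_sqrt b3
      have h7 := Real.sq_sqrt hL0.le
      nlinarith
    have h8 : 1 ≤ Real.sqrt L := Real.one_le_sqrt.2 (by linarith)
    have h9 : 0 ≤ Real.sqrt (Real.log n) := Real.sqrt_nonneg _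
    have h10 : |Real.sqrt (Real.log n) - Real.sqrt L| * (Real.sqrt (Real.log n) + Real.sqrt L) ≤ 2 * Real.log L := by
      rw [← abs_of_nonneg (by positivity : 0 ≤ Real.sqrt (Real.log n) + Real.sqrt L), ← abs_mul, h5]
      exact b4
    have h11 := abs_nonneg (Real.sqrt (Real.log n) - Real.sqrt L)
    nlinarith
  have e : thr α σ x (Real.log n) - thr α σ x L = α * (Real.log n - L) + x * (σ * (Real.sqrt (Real.log n) - Real.sqrt L)) := by
    unfold thr; ring
  rw [e]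
  have a1 : |α * (Real.log n - L)| ≤ |α| * (2 * Real.log L) := by
    rw [abs_mul]; exact mul_le_mul_of_nonneg_left b4 (abs_nonneg _)
  have a2 : |x * (σ * (Real.sqrt (Real.log n) - Real.sqrt L))| ≤ |x| * σ * (2 * Real.log L) := by
    rw [abs_mul, abs_mul, abs_of_pos hσ, mul_assoc]
    exact mul_le_mul_of_nonneg_left (mul_le_mul_of_nonneg_left b5 hσ.le) (abs_nonneg _)
  refine (abs_add_le _ _).trans ?_
  have a3 : C * Real.log L ≤ κ * Real.sqrt L := by
    have h12 : C * (Real.log L / L ^ (1 / 2 : ℝ)) * Real.sqrt L ≤ κ * Real.sqrt L :=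
      mul_le_mul_of_nonneg_right g1.le hs0.le
    have h13 : C * (Real.log L / L ^ (1 / 2 : ℝ)) * Real.sqrt L = C * Real.log L := by
      rw [← Real.sqrt_eq_rpow]; field_simp
    rw [h13] at h12
    exact h12
  have e2 : C * Real.log L = |α| * (2 * Real.log L) + |x| * σ * (2 * Real.log L) := by rw [hC]; ring
  linarith

/-- a number between two numbers -/
theorem abs_btw {c c1 c2 m r : ℝ} (_hr : 0 ≤ r) (h1 : c ≤ c1 + r) (h2 : c2 ≤ c + r) : |c - m| ≤ |c1 - m| + |c2 - m| + r := by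
  have h3 := le_abs_self (c1 - m)
  have h4 := neg_abs_le (c2 - m)
  have h5 := abs_nonneg (c1 - m)
  have h6 := abs_nonneg (c2 - m)
  rw [abs_le]
  constructor <;> linarith

/-- `N / log² N` is small -/
theorem inv_log_sq {μ : ℝ} (hμ : 0 < μ) : ∃ N₀ : ℕ, ∀ N : ℕ, N₀ ≤ N → (N : ℝ) / Real.log N ^ 2 ≤ μ * N := by
  have tl : Tendsto (fun N : ℕ => Real.log N) atTop atTop :=
    Real.tendsto_log_atTop.comp tendsto_natCast_atTop_atTop
  obtain ⟨N₀, h⟩ := eventually_atTop.1 (tl.eventually_ge_atTop (max 1 (1 / μ)))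
  refine ⟨N₀, fun N hN => ?_⟩
  have h1 := h N hN
  have h2 : 1 ≤ Real.log N := (le_max_left _ _).trans h1
  have h3 : 1 / μ ≤ Real.log N := (le_max_right _ _).trans h1
  rw [div_le_iff₀ (by positivity)]
  rw [div_le_iff₀ hμ] at h3
  have hN0 : (0 : ℝ) ≤ N := Nat.cast_nonneg _
  have h4 : 1 ≤ μ * Real.log N ^ 2 := by nlinarith
  calc (N : ℝ) = 1 * N := (one_mul _).symm
    _ ≤ (μ * Real.log N ^ 2) * N := mul_le_mul_of_nonneg_right h4 hN0
    _ = _ := by ring

/-- THE LAW IN RESIDUE CLASSES -/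
theorem RV_law {R : ℕ} {P : ℝ → ℕ → Prop} (hmono : ∀ τ τ' n, τ ≤ τ' → P τ n → P τ' n) (hsame : ∀ τ, Same R (P τ))
    {α σ : ℝ} (hσ : 0 < σ) {F : ℝ → ℝ} (hF : Continuous F)
    (law : ∀ x, Dn (fun n => P (thr α σ x (Real.log n)) n) (F x)) (x : ℝ) :
    RV (fun n => P (thr α σ x (Real.log n)) n) (F x) := by
  -- the sandwich
  have sand : ∀ κ : ℝ, 0 < κ → ∃ N₀ : ℕ, ∀ N : ℕ, N₀ ≤ N → 3 ≤ Real.log N ∧ ∀ q : ℕ, 1 ≤ q → ∀ a : ℤ,
      |ct (fun n => P (thr α σ x (Real.log n)) n) N q a - F x * N / q| ≤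
      |ct (P (thr α σ x (Real.log N) + κ * Real.sqrt (Real.log N))) N q a - F x * N / q| +
      |ct (P (thr α σ x (Real.log N) - κ * Real.sqrt (Real.log N))) N q a - F x * N / q| +
      ((N : ℝ) / Real.log N ^ 2 / q + 1) := by
    intro κ hκ
    obtain ⟨N₀, h⟩ := thr_var α σ x hσ hκ
    refine ⟨N₀, fun N hN => ⟨(h N hN).1, fun q hq a => ?_⟩⟩
    obtain ⟨hL3, hv⟩ := h N hN
    apply abs_btw (by positivity)
    · apply ct_or (by positivity) N hq a
      intro n _ hn hy hp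
      exact hmono _ _ n (by linarith [(abs_le.1 (hv n hy hn)).2]) hp
    · apply ct_or (by positivity) N hq a
      intro n _ hn hy hp
      exact hmono _ _ n (by linarith [(abs_le.1 (hv n hy hn)).1]) hp
  constructor
  · intro δ hδ ε hε
    obtain ⟨κ, hκ, h1⟩ := fix_law hmono hσ hF law x (show 0 < ε / 4 / 4 by positivity) 1
    obtain ⟨N1, h1⟩ := eventually_atTop.1 h1
    obtain ⟨N2, h2⟩ := fix_lev R hδ (show 0 < ε / 4 by positivity)
    obtain ⟨N3, h3⟩ := sand κ hκ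
    obtain ⟨N4, h4⟩ := inv_log_sq (show 0 < ε / 4 by positivity)
    obtain ⟨N5, h5⟩ := lev_le hδ (show 0 < ε / 4 by positivity)
    refine ⟨max (max N1 N2) (max N3 (max N4 N5)), fun N hN Q hQ hQl a => ?_⟩
    have i1 : N1 ≤ N := ((le_max_left _ _).trans (le_max_left _ _)).trans hN
    have i2 : N2 ≤ N := ((le_max_right _ _).trans (le_max_left _ _)).trans hN
    have i3 : N3 ≤ N := ((le_max_left _ _).trans (le_max_right _ _)).trans hN
    have i4 : N4 ≤ N := (((le_max_left _ _).trans (le_max_right _ _)).trans (le_max_right _ _)).trans hN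
    have i5 : N5 ≤ N := (((le_max_right _ _).trans (le_max_right _ _)).trans (le_max_right _ _)).trans hN
    obtain ⟨hL3, g3⟩ := h3 N i3
    have hs : 0 ≤ κ * Real.sqrt (Real.log N) := by positivity
    have g1 := h1 N i1
    have gp := h2 N i2 _ (hsame (thr α σ x (Real.log N) + κ * Real.sqrt (Real.log N))) (F x)
      (g1 _ (by rw [add_sub_cancel_left, abs_of_nonneg hs]) N (by omega)) Q hQ hQl a
    have gm := h2 N i2 _ (hsame (thr α σ x (Real.log N) - κ * Real.sqrt (Real.log N))) (F x)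
      (g1 _ (by rw [sub_sub_cancel_left, abs_neg, abs_of_nonneg hs]) N (by omega)) Q hQ hQl a
    have g6 := S1_add hQ (D := fun q a => ct (fun n => P (thr α σ x (Real.log n)) n) N q a - F x * N / q)
      (D1 := fun q a => ct (P (thr α σ x (Real.log N) + κ * Real.sqrt (Real.log N))) N q a - F x * N / q)
      (D2 := fun q a => ct (P (thr α σ x (Real.log N) - κ * Real.sqrt (Real.log N))) N q a - F x * N / q)
      (u := (N : ℝ) / Real.log N ^ 2) (by positivity) g3 a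
    have g4 := h4 N i4
    have g5 := h5 N i5
    simp only at g6 gp gm ⊢
    linarith
  · intro ε hε
    obtain ⟨η1, hη1, μ, hμ, N2, h2⟩ := fix_var R (show 0 < ε / 12 by positivity)
    obtain ⟨κ, hκ, h1⟩ := fix_law hmono hσ hF law x hμ 1
    obtain ⟨N1, h1⟩ := eventually_atTop.1 h1
    obtain ⟨N3, h3⟩ := sand κ hκ
    set ν : ℝ := min 1 (ε / 24) with hν
    have hν0 : 0 < ν := by positivity
    have hν1 : ν ≤ 1 := min_le_left _ _
    have hνε : ν ≤ ε / 24 := min_le_right _ _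
    obtain ⟨N4, h4⟩ := inv_log_sq hν0
    set η : ℝ := min η1 (min 1 (ε / 48)) with hη
    have hη0 : 0 < η := by positivity
    have e1 : η ≤ η1 := min_le_left _ _
    have e2 : η ≤ 1 := (min_le_right _ _).trans (min_le_left _ _)
    have e3 : η ≤ ε / 48 := (min_le_right _ _).trans (min_le_right _ _)
    refine ⟨η, hη0, max (max N1 N2) (max N3 N4), fun N hN Q hQ hQl => ?_⟩
    have i1 : N1 ≤ N := ((le_max_left _ _).trans (le_max_left _ _)).trans hN
    have i2 : N2 ≤ N := ((le_max_right _ _).trans (le_max_left _ _)).trans hN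
    have i3 : N3 ≤ N := ((le_max_left _ _).trans (le_max_right _ _)).trans hN
    have i4 : N4 ≤ N := ((le_max_right _ _).trans (le_max_right _ _)).trans hN
    obtain ⟨hL3, g3⟩ := h3 N i3
    have hs : 0 ≤ κ * Real.sqrt (Real.log N) := by positivity
    have hN0 : (0 : ℝ) ≤ N := Nat.cast_nonneg _
    have g1 := h1 N i1
    have hQl1 : (Q : ℝ) ≤ η1 * N := hQl.trans (mul_le_mul_of_nonneg_right e1 hN0)
    have gp := h2 N i2 _ (hsame (thr α σ x (Real.log N) + κ * Real.sqrt (Real.log N))) (F x)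
      (g1 _ (by rw [add_sub_cancel_left, abs_of_nonneg hs]) N (by omega)) Q hQ hQl1
    have gm := h2 N i2 _ (hsame (thr α σ x (Real.log N) - κ * Real.sqrt (Real.log N))) (F x)
      (g1 _ (by rw [sub_sub_cancel_left, abs_neg, abs_of_nonneg hs]) N (by omega)) Q hQ hQl1
    have g6 := S2_add hQ (D := fun q a => ct (fun n => P (thr α σ x (Real.log n)) n) N q a - F x * N / q)
      (D1 := fun q a => ct (P (thr α σ x (Real.log N) + κ * Real.sqrt (Real.log N))) N q a - F x * N / q)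
      (D2 := fun q a => ct (P (thr α σ x (Real.log N) - κ * Real.sqrt (Real.log N))) N q a - F x * N / q)
      (u := (N : ℝ) / Real.log N ^ 2) (by positivity) g3
    have g4 := h4 N i4
    have hQ0 : (0 : ℝ) < Q := by exact_mod_cast hQ
    have p2 : (Q : ℝ) ^ 2 ≤ ε / 48 * N ^ 2 := by
      calc (Q : ℝ) ^ 2 = Q * Q := by ring
        _ ≤ (ε / 48 * N) * (1 * N) := by
            apply mul_le_mul (hQl.trans (mul_le_mul_of_nonneg_right e3 hN0))
              (hQl.trans (mul_le_mul_of_nonneg_right e2 hN0)) hQ0.le (by positivity)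
        _ = _ := by ring
    have p4 : ((N : ℝ) / Real.log N ^ 2) ^ 2 ≤ ε / 24 * N ^ 2 := by
      have h5 : ((N : ℝ) / Real.log N ^ 2) ^ 2 ≤ (ν * N) ^ 2 := pow_le_pow_left₀ (by positivity) g4 2
      have h6 : ν ^ 2 ≤ ε / 24 := by
        calc ν ^ 2 = ν * ν := by ring
          _ ≤ ν * 1 := mul_le_mul_of_nonneg_left hν1 hν0.le
          _ ≤ _ := by rw [mul_one]; exact hνε
      calc ((N : ℝ) / Real.log N ^ 2) ^ 2 ≤ (ν * N) ^ 2 := h5
        _ = ν ^ 2 * N ^ 2 := by ring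
        _ ≤ _ := mul_le_mul_of_nonneg_right h6 (sq_nonneg _)
    simp only at g6 gp gm ⊢
    linarith

end Pool.Agent.Q37.LV
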