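import Pool.Agent.Q37.LV.Law

/-! The laws of the total stopping times in the residue classes to all moduli. -/

set_option autoImplicit false

namespace Pool.Agent.Q37.LV

open Finset Filter Topology
open Pool.Agent.Y964.LW
open Pool.Agent.Q37.BV (lev)
open Pool.Agent.H499R2.CO (Tz)
open Pool.Agent.H499R2.ND (Dn Tn Td Phi Phi_continuous phi_cdf Bas CC BasC CN_run)
open Pool.Agent.H499R2.LT (odn od od_nat Td_nat law_one law_oneC ocn oC_nat Dn_sum Dn_iff)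
open Pool.Agent.H499R2.HL (H H_two H_of_two H_unique odn_two bk bo nu rr nu_pos rr_pos sqrt_rr law_k law_o oc_odn)
open scoped Classical

theorem ct_congr {P Q : ℕ → Prop} (h : ∀ n, 1 ≤ n → (P n ↔ Q n)) (M q : ℕ) (a : ℤ) : ct P M q a = ct Q M q a := by
  rw [ct_eq, ct_eq]
  apply sum_congr rfl
  intro n hn
  rw [mem_Icc] at hn
  simp only [h n hn.1]

theorem RV_congr {P Q : ℕ → Prop} {l : ℝ} (h : ∀ n, 1 ≤ n → (P n ↔ Q n)) (hP : RV P l) : RV Q l := by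
  unfold RV at hP ⊢
  simp only [← fun M q a => ct_congr h M q a]
  exact hP

theorem fam_RV {R : ℕ} {ι : Type} (A : Fam 1 R ι) (i : ι) (x : ℝ) :
    RV (fun n => A.E i (thr A.α A.σ x (Real.log n)) n) (A.F i x) :=
  RV_law (P := A.E i) (A.mono i) (fun τ => A.same i τ) A.hσ (A.cont i) (A.law i) x

theorem rv_laws : ∃ δ : ℝ, 0 < δ ∧ δ ≤ 1 ∧ (δ = 1 ↔ ∀ n : ℕ, 1 ≤ n → ∃ k : ℕ, Tn^[k] n = 1) ∧
    Dn (fun n => ∃ k : ℕ, Tn^[k] n = 1) δ ∧ RV (fun n => ∃ k, H k n) δ ∧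
    ∀ (m : ℕ) (a b : ℤ), 1 ≤ m →
      RV (fun n => ∃ k, H k n ∧ ((k : ℤ) ≡ a [ZMOD m] ∧ (odn k n : ℤ) ≡ b [ZMOD m])) (δ / m ^ 2) ∧
      RV (fun n => ∃ k, H k n ∧ (odn k n : ℤ) ≡ b [ZMOD m]) (δ / m) ∧
      ∀ x : ℝ,
        RV (fun n => ∃ k, H k n ∧ ((k : ℝ) ≤ bk x (Real.log n) ∧ (k : ℤ) ≡ a [ZMOD m] ∧
          (odn k n : ℤ) ≡ b [ZMOD m])) (δ / m ^ 2 * Phi x) ∧
        RV (fun n => ∃ k, H k n ∧ (((k + odn k n : ℕ) : ℝ) ≤ bc x (Real.log n) ∧
          ((k + odn k n : ℕ) : ℤ) ≡ a [ZMOD m] ∧ (odn k n : ℤ) ≡ b [ZMOD m])) (δ / m ^ 2 * Phi x) ∧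
        RV (fun n => ∃ k, H k n ∧ ((odn k n : ℝ) ≤ bo x (Real.log n) ∧ (odn k n : ℤ) ≡ b [ZMOD m]))
          (δ / m * Phi x) := by
  obtain ⟨δ, h0, h1, h2, h3, h4⟩ := law_one
  obtain ⟨δ1, _, _, _, h31, h41⟩ := law_k
  obtain ⟨δ2, _, _, _, h32, h42⟩ := law_oneC
  have e1 : δ1 = δ := tendsto_nhds_unique h31 h3
  have e2 : δ2 = δ := by
    refine tendsto_nhds_unique (Dn_iff (fun n _ => ?_) h32) h3
    exact (BasC n).symm
  rw [e1] at h41
  rw [e2] at h42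
  have hnu := nu_pos
  have hrr := rr_pos
  have hl2 : 0 < Real.log 2 := Real.log_pos (by norm_num)
  have hl3 : 0 < Real.log 3 := Real.log_pos (by norm_num)
  have hl6 : 0 < Real.log 6 := Real.log_pos (by norm_num)
  have hB : Dn (fun n => ∃ k, H k n) δ := Dn_iff (fun n _ => hit_iff n) h3
  have c0 : Continuous (fun _ : ℝ => δ) := continuous_const
  refine ⟨δ, h0, h1, h2, h3, ?_, fun m a b hm => ⟨?_, ?_, fun x => ⟨?_, ?_, ?_⟩⟩⟩
  · have h5 := fam_RV (mkFam (ι := Unit) (fun _ _ _ _ => True) id 0 1 1 (fun _ _ => δ) le_rfl one_pos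
      (fun _ _ _ _ _ _ h => h) (fun _ _ _ _ => Iff.rfl) (fun _ _ => rfl) (fun _ _ => ⟨h0.le, h1⟩) (fun _ => c0)
      (fun _ _ => by simpa using hB)) () 0
    refine RV_congr (fun n _ => ?_) h5
    show (∃ k, H k n ∧ True) ↔ _
    simp
  · have h5 := fam_RV (mkFam (ι := ℤ × ℤ) (fun i _ k o => (k : ℤ) ≡ i.1 [ZMOD m] ∧ (o : ℤ) ≡ i.2 [ZMOD m])
      (fun i => (i.1 - 1, i.2)) 0 1 1 (fun _ _ => δ / (m : ℝ) ^ 2) le_rfl one_pos
      (fun _ _ _ _ _ _ h => h) (fun i _ k o => by rw [mod_succ]) (fun _ _ => rfl) (fun _ _ => div_sq_le h0 h1 hm)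
      (fun _ => continuous_const)
      (fun i _ => (h4 m i.1 i.2 hm).1)) (a, b) 0
    exact h5
  · have h5 := fam_RV (mkFam (ι := ℤ) (fun i _ _ o => (o : ℤ) ≡ i [ZMOD m])
      id 0 1 1 (fun _ _ => δ / (m : ℝ)) le_rfl one_pos
      (fun _ _ _ _ _ _ h => h) (fun i _ k o => Iff.rfl) (fun _ _ => rfl) (fun _ _ => div_le' h0 h1 hm)
      (fun _ => continuous_const)
      (fun i _ => (h41 m i hm).1)) b 0
    exact h5
  · have h5 := fam_RV (mkFam (ι := ℤ × ℤ) (fun i τ k o => (k : ℝ) ≤ τ ∧ (k : ℤ) ≡ i.1 [ZMOD m] ∧ (o : ℤ) ≡ i.2 [ZMOD m])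
      (fun i => (i.1 - 1, i.2)) 1 (2 / Real.log (4 / 3)) (Real.log 3 * rr) (fun _ x => δ / (m : ℝ) ^ 2 * Phi x)
      zero_le_one (by positivity)
      (fun _ _ _ _ _ h1 h => ⟨h.1.trans h1, h.2⟩) (fun i τ k o => by
        rw [mod_succ, le_sub_iff_add_le]; push_cast; rfl) (fun _ _ => rfl)
      (fun _ x => mul01 (div_sq_le h0 h1 hm) (phi01 x))
      (fun _ => Phi_continuous.const_mul _)
      (fun i x => by
        have h6 := (h4 m i.1 i.2 hm).2 x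
        have e : δ * ProbabilityTheory.cdf (ProbabilityTheory.gaussianReal 0 1) x / (m : ℝ) ^ 2
            = δ / m ^ 2 * Phi x := by rw [phi_cdf]; ring
        rw [e] at h6
        refine Dn_iff (fun n _ => exists_congr fun k => ?_) h6
        rw [← bk_thr]
        unfold bk H
        tauto)) (a, b) x
    refine RV_congr (fun n _ => ?_) h5
    rw [bk_thr]
    exact Iff.rfl
  · have h5 := fam_RV (mkFam (ι := ℤ × ℤ) (fun i τ k o => ((k + o : ℕ) : ℝ) ≤ τ ∧ ((k + o : ℕ) : ℤ) ≡ i.1 [ZMOD m] ∧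
        (o : ℤ) ≡ i.2 [ZMOD m])
      (fun i => (i.1 - 1, i.2)) 1 (3 / Real.log (4 / 3)) (Real.log 6 * rr) (fun _ x => δ / (m : ℝ) ^ 2 * Phi x)
      zero_le_one (by positivity)
      (fun _ _ _ _ _ h1 h => ⟨h.1.trans h1, h.2⟩) (fun i τ k o => by
        rw [show k + 1 + o = (k + o) + 1 by ring, mod_succ, le_sub_iff_add_le]; push_cast; rfl) (fun _ _ => rfl)
      (fun _ x => mul01 (div_sq_le h0 h1 hm) (phi01 x))
      (fun _ => Phi_continuous.const_mul _)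
      (fun i x => by
        have h6 := h42 m i.1 i.2 hm x
        have e : δ * ProbabilityTheory.cdf (ProbabilityTheory.gaussianReal 0 1) x / (m : ℝ) ^ 2
            = δ / m ^ 2 * Phi x := by rw [phi_cdf]; ring
        rw [e] at h6
        refine Dn_iff (fun n hn => ?_) h6
        rw [← bc_thr]
        constructor
        · rintro ⟨l, g1, g2, g3, g4⟩
          obtain ⟨k, hk, rfl⟩ := (hitC hn).1 g2
          rw [ocn_run] at g4
          exact ⟨k, hk, g1, g3, g4⟩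
        · rintro ⟨k, hk, g1, g3, g4⟩
          exact ⟨k + odn k n, g1, (hitC hn).2 ⟨k, hk, rfl⟩, g3, by rw [ocn_run]; exact g4⟩)) (a, b) x
    refine RV_congr (fun n _ => ?_) h5
    rw [bc_thr]
    exact Iff.rfl
  · have h5 := fam_RV (mkFam (ι := ℤ) (fun i τ _ o => (o : ℝ) ≤ τ ∧ (o : ℤ) ≡ i [ZMOD m])
      id 0 (1 / Real.log (4 / 3)) (Real.log 2 * rr) (fun _ x => δ / (m : ℝ) * Phi x)
      le_rfl (by positivity)
      (fun _ _ _ _ _ h1 h => ⟨h.1.trans h1, h.2⟩) (fun i τ k o => by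
        rw [sub_zero]; rfl) (fun _ _ => rfl)
      (fun _ x => mul01 (div_le' h0 h1 hm) (phi01 x))
      (fun _ => Phi_continuous.const_mul _)
      (fun i x => by
        refine Dn_iff (fun n _ => exists_congr fun k => ?_) (law_o (h41 m i hm).2 x)
        rw [← bo_thr]
        tauto)) b x
    refine RV_congr (fun n _ => ?_) h5
    rw [bo_thr]
    exact Iff.rfl

/-! ### algebra of mean values -/

theorem Lev_of {δ ε : ℝ} {N : ℕ} {D D1 D2 : ℕ → ℤ → ℝ} {u : ℝ} (hu : 0 ≤ u) {e1 e2 : ℝ}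
    (h : ∀ q : ℕ, 1 ≤ q → ∀ a : ℤ, |D q a| ≤ |D1 q a| + |D2 q a| + (u / q + 1)) (h1 : Lev δ e1 N D1) (h2 : Lev δ e2 N D2)
    (h3 : u + lev δ N ≤ (ε - e1 - e2) * N) : Lev δ ε N D := by
  intro Q hQ hQl a
  have g := S1_add hQ hu h a
  have g1 := h1 Q hQ hQl a
  have g2 := h2 Q hQ hQl a
  nlinarith

theorem Var_of {η ε : ℝ} {N : ℕ} {D D1 D2 : ℕ → ℤ → ℝ} {u : ℝ} (hu : 0 ≤ u) {e1 e2 : ℝ} (_hη : 0 ≤ η)
    (h : ∀ q : ℕ, 1 ≤ q → ∀ a : ℤ, |D q a| ≤ |D1 q a| + |D2 q a| + (u / q + 1)) (h1 : Var η e1 N D1) (h2 : Var η e2 N D2)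
    (h3 : 6 * u ^ 2 + 12 * η ^ 2 * N ^ 2 ≤ (ε - 3 * e1 - 3 * e2) * N ^ 2) : Var η ε N D := by
  intro Q hQ hQl
  have g := S2_add hQ hu h
  have g1 := h1 Q hQ hQl
  have g2 := h2 Q hQ hQl
  have g3 : (Q : ℝ) ^ 2 ≤ η ^ 2 * N ^ 2 := by
    rw [← mul_pow]
    exact pow_le_pow_left₀ (Nat.cast_nonneg _) hQl 2
  nlinarith

theorem Var_mono {η η' ε : ℝ} {N : ℕ} {D : ℕ → ℤ → ℝ} (h : η' ≤ η) (hD : Var η ε N D) : Var η' ε N D :=
  fun Q hQ hQl => hD Q hQ (hQl.trans (mul_le_mul_of_nonneg_right h (Nat.cast_nonneg _)))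

/-- differences -/
theorem RV_diff {P Q R : ℕ → Prop} {a b : ℝ} (hP : RV P a) (hQ : RV Q b) (hPQ : ∀ n, P n → Q n)
    (hR : ∀ n, R n ↔ (Q n ∧ ¬ P n)) : RV R (b - a) := by
  have e : ∀ M q c, ct R M q c = ct Q M q c - ct P M q c := by
    intro M q c
    rw [ct_eq, ct_eq, ct_eq, ← sum_sub_distrib]
    apply sum_congr rfl
    intro n _
    by_cases h1 : (q : ℤ) ∣ (n : ℤ) - c
    · by_cases h2 : P n
      · have h3 := hPQ n h2
        simp [h1, h2, h3, hR]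
      · by_cases h3 : Q n
        · simp [h1, h2, h3, hR]
        · simp [h1, h2, h3, hR]
    · simp [h1]
  have key : ∀ N q c, 1 ≤ q → |ct R N q c - (b - a) * N / q| ≤ |ct Q N q c - b * N / q| + |ct P N q c - a * N / q| + (0 / q + 1) := by
    intro N q c _
    have e1 : ct R N q c - (b - a) * N / q = (ct Q N q c - b * N / q) - (ct P N q c - a * N / q) := by
      rw [e]; ring
    rw [e1]
    refine (abs_sub _ _).trans ?_
    simp
  constructor
  · intro δ hδ ε hε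
    obtain ⟨N1, h1⟩ := hP.1 δ hδ (ε / 3) (by positivity)
    obtain ⟨N2, h2⟩ := hQ.1 δ hδ (ε / 3) (by positivity)
    obtain ⟨N3, h3⟩ := lev_le hδ (show 0 < ε / 3 by positivity)
    refine ⟨max N1 (max N2 N3), fun N hN => ?_⟩
    have g3 := h3 N (((le_max_right _ _).trans (le_max_right _ _)).trans hN)
    exact Lev_of le_rfl (fun q hq c => key N q c hq) (h2 N (((le_max_left _ _).trans (le_max_right _ _)).trans hN))
      (h1 N ((le_max_left _ _).trans hN)) (by linarith)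
  · intro ε hε
    obtain ⟨η1, hη1, N1, h1⟩ := hP.2 (ε / 12) (by positivity)
    obtain ⟨η2, hη2, N2, h2⟩ := hQ.2 (ε / 12) (by positivity)
    refine ⟨min (min η1 η2) (min 1 (ε / 24)), by positivity, max N1 N2, fun N hN => ?_⟩
    have i1 : min (min η1 η2) (min 1 (ε / 24)) ≤ η1 := (min_le_left _ _).trans (min_le_left _ _)
    have i2 : min (min η1 η2) (min 1 (ε / 24)) ≤ η2 := (min_le_left _ _).trans (min_le_right _ _)
    have i3 : min (min η1 η2) (min 1 (ε / 24)) ≤ 1 := (min_le_right _ _).trans (min_le_left _ _)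
    have i4 : min (min η1 η2) (min 1 (ε / 24)) ≤ ε / 24 := (min_le_right _ _).trans (min_le_right _ _)
    have i0 : 0 ≤ min (min η1 η2) (min 1 (ε / 24)) := by positivity
    refine Var_of le_rfl i0 (fun q hq c => key N q c hq) (Var_mono i2 (h2 N ((le_max_right _ _).trans hN)))
      (Var_mono i1 (h1 N ((le_max_left _ _).trans hN))) ?_
    have h5 : (min (min η1 η2) (min 1 (ε / 24))) ^ 2 ≤ ε / 24 := by nlinarith
    have h6 := mul_le_mul_of_nonneg_right h5 (sq_nonneg (N : ℝ))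
    nlinarith

/-- squeezing -/
theorem RV_squeeze {P : ℕ → Prop} {l : ℝ} (h : ∀ ζ : ℝ, 0 < ζ → ∃ (P1 P2 : ℕ → Prop) (l1 l2 : ℝ) (n0 : ℕ),
    (∀ n, n0 ≤ n → P1 n → P n) ∧ (∀ n, n0 ≤ n → P n → P2 n) ∧ RV P1 l1 ∧ RV P2 l2 ∧ l - ζ ≤ l1 ∧ l1 ≤ l + ζ ∧
      l - ζ ≤ l2 ∧ l2 ≤ l + ζ) : RV P l := by
  have key : ∀ (P1 P2 : ℕ → Prop) (l1 l2 ζ : ℝ) (n0 : ℕ), (∀ n, n0 ≤ n → P1 n → P n) → (∀ n, n0 ≤ n → P n → P2 n) →
      l - ζ ≤ l1 → l1 ≤ l + ζ → l - ζ ≤ l2 → l2 ≤ l + ζ → 0 < ζ → ∀ (N q : ℕ) (c : ℤ), 1 ≤ q →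
      |ct P N q c - l * N / q| ≤ |ct P2 N q c - l2 * N / q| + |ct P1 N q c - l1 * N / q| + ((n0 + 2 * ζ * N) / q + 1) := by
    intro P1 P2 l1 l2 ζ n0 h1 h2 b1 b2 b3 b4 hζ N q c hq
    have hq0 : (0 : ℝ) < q := by exact_mod_cast hq
    have g1 := ct_or (P := P1) (Q := P) (y := n0) (Nat.cast_nonneg _) N hq c
      (fun n _ _ hn hp => h1 n (by exact_mod_cast hn.le) hp)
    have g2 := ct_or (P := P) (Q := P2) (y := n0) (Nat.cast_nonneg _) N hq c
      (fun n _ _ hn hp => h2 n (by exact_mod_cast hn.le) hp)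
    have hNq : 0 ≤ (N : ℝ) / q := by positivity
    have e1 : l1 * N / q = l1 * (N / q) := by ring
    have e2 : l2 * N / q = l2 * (N / q) := by ring
    have e3 : l * N / q = l * (N / q) := by ring
    have e4 : ((n0 : ℝ) + 2 * ζ * N) / q = n0 / q + 2 * ζ * (N / q) := by ring
    rw [e1, e2, e3, e4]
    have h3 := le_abs_self (ct P2 N q c - l2 * (N / q))
    have h4 := neg_abs_le (ct P1 N q c - l1 * (N / q))
    have h5 := abs_nonneg (ct P2 N q c - l2 * (N / q))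
    have h6 := abs_nonneg (ct P1 N q c - l1 * (N / q))
    have m1 : (l - ζ) * (N / q) ≤ l1 * (N / q) := mul_le_mul_of_nonneg_right b1 hNq
    have m4 : l2 * (N / q) ≤ (l + ζ) * (N / q) := mul_le_mul_of_nonneg_right b4 hNq
    have m5 : 0 ≤ ζ * ((N : ℝ) / q) := by positivity
    rw [abs_le]
    constructor
    · nlinarith
    · nlinarith
  have tl : Tendsto (fun N : ℕ => (N : ℝ)) atTop atTop := tendsto_natCast_atTop_atTop
  constructor
  · intro δ hδ ε hε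
    obtain ⟨P1, P2, l1, l2, n0, c1, c2, c3, c4, b1, b2, b3, b4⟩ := h (ε / 10) (by positivity)
    obtain ⟨N1, h1⟩ := c3.1 δ hδ (ε / 5) (by positivity)
    obtain ⟨N2, h2⟩ := c4.1 δ hδ (ε / 5) (by positivity)
    obtain ⟨N3, h3⟩ := lev_le hδ (show 0 < ε / 5 by positivity)
    obtain ⟨N4, h4⟩ := eventually_atTop.1 (tl.eventually_ge_atTop (5 * n0 / ε))
    refine ⟨max (max N1 N2) (max N3 N4), fun N hN => ?_⟩
    have i1 : N1 ≤ N := ((le_max_left _ _).trans (le_max_left _ _)).trans hN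
    have i2 : N2 ≤ N := ((le_max_right _ _).trans (le_max_left _ _)).trans hN
    have i3 : N3 ≤ N := ((le_max_left _ _).trans (le_max_right _ _)).trans hN
    have i4 : N4 ≤ N := ((le_max_right _ _).trans (le_max_right _ _)).trans hN
    have g3 := h3 N i3
    have g4 := h4 N i4
    rw [div_le_iff₀ hε] at g4
    have hN0 : (0 : ℝ) ≤ N := Nat.cast_nonneg _
    refine Lev_of (u := n0 + 2 * (ε / 10) * N) (by positivity)
      (fun q hq c => key P1 P2 l1 l2 (ε / 10) n0 c1 c2 b1 b2 b3 b4 (by positivity) N q c hq)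
      (h2 N i2) (h1 N i1) (by linarith)
  · intro ε hε
    set ζ : ℝ := min 1 (ε / 200) with hζ
    have hζ0 : 0 < ζ := by positivity
    have z1 : ζ ≤ 1 := min_le_left _ _
    have z2 : ζ ≤ ε / 200 := min_le_right _ _
    obtain ⟨P1, P2, l1, l2, n0, c1, c2, c3, c4, b1, b2, b3, b4⟩ := h ζ hζ0
    obtain ⟨η1, hη1, N1, h1⟩ := c3.2 (ε / 24) (by positivity)
    obtain ⟨η2, hη2, N2, h2⟩ := c4.2 (ε / 24) (by positivity)
    obtain ⟨N4, h4⟩ := eventually_atTop.1 (tl.eventually_ge_atTop (n0 / ζ))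
    refine ⟨min (min η1 η2) (min 1 (ε / 48)), by positivity, max (max N1 N2) N4, fun N hN => ?_⟩
    have j1 : N1 ≤ N := ((le_max_left _ _).trans (le_max_left _ _)).trans hN
    have j2 : N2 ≤ N := ((le_max_right _ _).trans (le_max_left _ _)).trans hN
    have j4 : N4 ≤ N := (le_max_right _ _).trans hN
    have i1 : min (min η1 η2) (min 1 (ε / 48)) ≤ η1 := (min_le_left _ _).trans (min_le_left _ _)
    have i2 : min (min η1 η2) (min 1 (ε / 48)) ≤ η2 := (min_le_left _ _).trans (min_le_right _ _)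
    have i3 : min (min η1 η2) (min 1 (ε / 48)) ≤ 1 := (min_le_right _ _).trans (min_le_left _ _)
    have i4 : min (min η1 η2) (min 1 (ε / 48)) ≤ ε / 48 := (min_le_right _ _).trans (min_le_right _ _)
    have i0 : 0 ≤ min (min η1 η2) (min 1 (ε / 48)) := by positivity
    have hN0 : (0 : ℝ) ≤ N := Nat.cast_nonneg _
    have g4 := h4 N j4
    rw [div_le_iff₀ hζ0] at g4
    refine Var_of (u := n0 + 2 * ζ * N) (by positivity) i0
      (fun q hq c => key P1 P2 l1 l2 ζ n0 c1 c2 b1 b2 b3 b4 hζ0 N q c hq)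
      (Var_mono i2 (h2 N j2)) (Var_mono i1 (h1 N j1)) ?_
    have h5 : (min (min η1 η2) (min 1 (ε / 48))) ^ 2 ≤ ε / 48 := by nlinarith
    have h6 := mul_le_mul_of_nonneg_right h5 (sq_nonneg (N : ℝ))
    have h7 : (n0 + 2 * ζ * N : ℝ) ^ 2 ≤ ε / 200 * 9 * N ^ 2 := by
      have h8 : (n0 + 2 * ζ * N : ℝ) ≤ 3 * ζ * N := by nlinarith
      have h9 : (n0 + 2 * ζ * N : ℝ) ^ 2 ≤ (3 * ζ * N) ^ 2 := pow_le_pow_left₀ (by positivity) h8 2
      have h10 : ζ ^ 2 ≤ ε / 200 := by nlinarith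
      have h11 := mul_le_mul_of_nonneg_right h10 (show 0 ≤ 9 * (N : ℝ) ^ 2 by positivity)
      nlinarith
    nlinarith [sq_nonneg (N : ℝ), mul_nonneg hε.le (sq_nonneg (N : ℝ))]

/-- THE LAW OF LARGE NUMBERS -/
theorem rv_lln {f : ℕ → ℕ → ℝ} {α σ δ η : ℝ} (hσ : 0 < σ) (hδ0 : 0 ≤ δ) (hδ1 : δ ≤ 1) (hη : 0 < η)
    (h1 : ∀ x, RV (fun n => ∃ k, H k n ∧ f k n ≤ thr α σ x (Real.log n)) (δ * Phi x))
    (h2 : RV (fun n => ∃ k, H k n) δ) :
    RV (fun n => ∃ k, H k n ∧ |f k n - α * Real.log n| ≤ η * Real.log n) δ := by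
  have t1 : Tendsto Phi atTop (𝓝 1) := by
    have := ProbabilityTheory.tendsto_cdf_atTop (ProbabilityTheory.gaussianReal 0 1)
    refine this.congr fun x => ?_
    rw [phi_cdf]
  have t2 : Tendsto Phi atBot (𝓝 0) := by
    have := ProbabilityTheory.tendsto_cdf_atBot (ProbabilityTheory.gaussianReal 0 1)
    refine this.congr fun x => ?_
    rw [phi_cdf]
  refine RV_squeeze fun ζ hζ => ?_
  obtain ⟨x1, hx1⟩ := eventually_atTop.1 (t1.eventually_const_lt (show 1 - ζ / 2 < 1 by linarith))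
  obtain ⟨x2, hx2⟩ := eventually_atBot.1 (t2.eventually_lt_const (show (0 : ℝ) < ζ / 2 by linarith))
  set X : ℝ := max (max x1 (-x2)) 1 with hX
  have hX0 : 0 < X := lt_of_lt_of_le one_pos (le_max_right _ _)
  have a1 := hx1 X ((le_max_left _ _).trans (le_max_left _ _))
  have a2 := hx2 (-X) (by
    have : -x2 ≤ X := (le_max_right _ _).trans (le_max_left _ _)
    linarith)
  have hmono : ∀ n : ℕ, (∃ k, H k n ∧ f k n ≤ thr α σ (-X) (Real.log n)) →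
      (∃ k, H k n ∧ f k n ≤ thr α σ X (Real.log n)) := by
    rintro n ⟨k, hk, h3⟩
    refine ⟨k, hk, h3.trans ?_⟩
    unfold thr
    have : 0 ≤ σ * Real.sqrt (Real.log n) := by positivity
    nlinarith
  have hd := RV_diff (h1 (-X)) (h1 X) hmono (R := fun n => (∃ k, H k n ∧ f k n ≤ thr α σ X (Real.log n)) ∧
    ¬ (∃ k, H k n ∧ f k n ≤ thr α σ (-X) (Real.log n))) (fun _ => Iff.rfl)
  have tl : Tendsto (fun n : ℕ => Real.sqrt (Real.log n)) atTop atTop :=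
    Real.tendsto_sqrt_atTop.comp (Real.tendsto_log_atTop.comp tendsto_natCast_atTop_atTop)
  obtain ⟨n0, hn0⟩ := eventually_atTop.1 (tl.eventually_ge_atTop (X * σ / η))
  have b1 := (phi01 X).2
  have b2 := (phi01 (-X)).1
  refine ⟨_, _, _, δ, n0, fun n hn h => ?_, fun n _ h => ?_, hd, h2, ?_, ?_, by linarith, by linarith⟩
  · obtain ⟨⟨k, hk, h3⟩, h4⟩ := h
    refine ⟨k, hk, ?_⟩
    have h5 : ¬ f k n ≤ thr α σ (-X) (Real.log n) := fun h6 => h4 ⟨k, hk, h6⟩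
    push Not at h5
    have h6 := hn0 n hn
    rw [div_le_iff₀ hη] at h6
    have h7 : 0 ≤ Real.log n := Real.log_natCast_nonneg n
    have h8 := Real.sq_sqrt h7
    have h9 := Real.sqrt_nonneg (Real.log n)
    have h10 : X * (σ * Real.sqrt (Real.log n)) ≤ η * Real.log n := by
      have h11 := mul_le_mul_of_nonneg_right h6 h9
      nlinarith
    unfold thr at h3 h5
    rw [abs_le]
    constructor <;> linarith
  · obtain ⟨k, hk, _⟩ := h
    exact ⟨k, hk⟩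
  · nlinarith
  · nlinarith

end Pool.Agent.Q37.LV
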