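import Pool.Agent.Q37.LV.Ave

/-! Odd integers in residue classes. -/

set_option autoImplicit false

namespace Pool.Agent.Q37.LV

open Finset Filter Topology
open Pool.Agent.Q37.BV (lev len len_facts ind ind_nonneg sum_ind sum_Ico_nat)

/-- sums over the odd elements of residue classes -/
noncomputable def cfo (F : ℕ → ℝ) (N q : ℕ) (a : ℤ) : ℝ :=
  ∑ n ∈ Icc 1 N, if n % 2 = 1 ∧ (q : ℤ) ∣ (n : ℤ) - a then F n else 0

/-- `F N` has the mean value `V` over the odd elements of residue classes -/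
def RVO (F : ℕ → ℕ → ℝ) (V : ℝ) : Prop :=
  (∀ δ : ℝ, 0 < δ → ∀ ε : ℝ, 0 < ε → ∃ N₀ : ℕ, ∀ N : ℕ, N₀ ≤ N →
    Lev δ ε N (fun q a => cfo (F N) N q a - V * cfo (fun _ => 1) N q a)) ∧
  (∀ ε : ℝ, 0 < ε → ∃ η : ℝ, 0 < η ∧ ∃ N₀ : ℕ, ∀ N : ℕ, N₀ ≤ N →
    Var η ε N (fun q a => cfo (F N) N q a - V * cfo (fun _ => 1) N q a))

/-- the even modulus -/
def oq (q : ℕ) : ℕ := if q % 2 = 0 then q else 2 * q

/-- the odd representative -/
def oa (q : ℕ) (a : ℤ) : ℤ := if q % 2 = 0 then a else if a % 2 = 1 then a else a + q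

theorem cfo_zero (F : ℕ → ℝ) (N : ℕ) {q : ℕ} {a : ℤ} (hq : q % 2 = 0) (ha : a % 2 = 0) : cfo F N q a = 0 := by
  unfold cfo
  apply sum_eq_zero
  intro n _
  rw [if_neg]
  rintro ⟨h1, k, h2⟩
  have h3 : ((q : ℤ) * k) % 2 = 0 := by
    have : (q : ℤ) % 2 = 0 := by omega
    rw [Int.mul_emod, this]; simp
  omega

theorem cfo_eq (F : ℕ → ℝ) (N : ℕ) {q : ℕ} {a : ℤ} (h : ¬ (q % 2 = 0 ∧ a % 2 = 0)) :
    cfo F N q a = cf F N (oq q) (oa q a) := by
  unfold cfo cf
  apply sum_congr rfl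
  intro n _
  have key : (n % 2 = 1 ∧ (q : ℤ) ∣ (n : ℤ) - a) ↔ ((oq q : ℕ) : ℤ) ∣ (n : ℤ) - oa q a := by
    unfold oq oa
    by_cases hq : q % 2 = 0
    · rw [if_pos hq, if_pos hq]
      constructor
      · exact fun h => h.2
      · intro h2
        refine ⟨?_, h2⟩
        obtain ⟨k, hk⟩ := h2
        have h3 : ((q : ℤ) * k) % 2 = 0 := by
          have : (q : ℤ) % 2 = 0 := by omega
          rw [Int.mul_emod, this]; simp
        omega
    · rw [if_neg hq, if_neg hq]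
      push_cast
      set a' : ℤ := if a % 2 = 1 then a else a + q with ha'
      have h1 : a' % 2 = 1 := by rw [ha']; split_ifs <;> omega
      have h2 : (q : ℤ) ∣ (n : ℤ) - a ↔ (q : ℤ) ∣ (n : ℤ) - a' := by
        rw [ha']
        split_ifs
        · exact Iff.rfl
        · constructor
          · intro h; have := dvd_sub h (dvd_refl (q : ℤ)); rwa [show (n : ℤ) - a - q = n - (a + q) by ring] at this
          · intro h; have := dvd_add h (dvd_refl (q : ℤ)); rwa [show (n : ℤ) - (a + q) + q = n - a by ring] at this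
      rw [h2]
      have hc : IsCoprime (2 : ℤ) (q : ℤ) := by
        rw [Int.isCoprime_iff_gcd_eq_one]
        have h3 : Nat.Coprime 2 q := by rw [Nat.coprime_two_left]; exact Nat.odd_iff.2 (by omega)
        exact h3
      constructor
      · rintro ⟨h3, h4⟩
        exact hc.mul_dvd (by omega) h4
      · intro h3
        refine ⟨?_, (dvd_mul_left _ _).trans h3⟩
        have := (dvd_mul_right (2 : ℤ) q).trans h3
        omega
  simp only [key]

theorem oq_pos {q : ℕ} (hq : 1 ≤ q) : 1 ≤ oq q := by unfold oq; split_ifs <;> omega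

theorem cf_one (N q : ℕ) (a : ℤ) : cf (fun _ => 1) N q a = ct (fun _ => True) N q a := by
  classical
  rw [← cf_ct]
  simp

/-- the discrepancy over odd integers -/
theorem odd_disc (F : ℕ → ℝ) (V : ℝ) (N : ℕ) {q : ℕ} (hq : 1 ≤ q) (a : ℤ) :
    |cfo F N q a - V * cfo (fun _ => 1) N q a| ≤ |cf F N (oq q) (oa q a) - V * N / ((oq q : ℕ) : ℝ)| + |V| := by
  by_cases h : q % 2 = 0 ∧ a % 2 = 0
  · rw [cfo_zero _ _ h.1 h.2, cfo_zero _ _ h.1 h.2, mul_zero, sub_zero, abs_zero]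
    positivity
  · rw [cfo_eq _ _ h, cfo_eq _ _ h, cf_one]
    have h1 := ct_true (N := N) (oq_pos hq) (oa q a)
    have e : cf F N (oq q) (oa q a) - V * ct (fun _ => True) N (oq q) (oa q a) =
        (cf F N (oq q) (oa q a) - V * N / ((oq q : ℕ) : ℝ)) - V * (ct (fun _ => True) N (oq q) (oa q a) - N / ((oq q : ℕ) : ℝ)) := by
      ring
    rw [e]
    refine (abs_sub _ _).trans ?_
    rw [abs_mul]
    have := mul_le_mul_of_nonneg_left h1 (abs_nonneg V)
    linarith

/-- doubling the level -/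
theorem lev_two {δ : ℝ} (hδ : 0 < δ) : ∃ δ' : ℝ, 0 < δ' ∧ ∃ N₀ : ℕ, ∀ N : ℕ, N₀ ≤ N → 2 * lev δ N ≤ lev δ' N := by
  have tl : Tendsto (fun N : ℕ => Real.log N) atTop atTop :=
    Real.tendsto_log_atTop.comp tendsto_natCast_atTop_atTop
  set δ' : ℝ := min δ (1 / 2) / 2 with hδ'
  have h1 : 0 < δ' := by positivity
  have h2 : δ' < δ := by
    have : min δ (1 / 2) ≤ δ := min_le_left _ _
    rw [hδ']; linarith
  have h3 : δ' < 1 / 2 := by
    have : min δ (1 / 2) ≤ 1 / 2 := min_le_right _ _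
    rw [hδ']; linarith
  have t1 : Tendsto (fun N : ℕ => Real.log N ^ (1 / 2 - δ')) atTop atTop :=
    (tendsto_rpow_atTop (by linarith)).comp tl
  have t2 : Tendsto (fun N : ℕ => Real.log N ^ (-(δ - δ'))) atTop (𝓝 0) :=
    (tendsto_rpow_neg_atTop (by linarith)).comp tl
  obtain ⟨N₀, h⟩ := eventually_atTop.1 ((t1.eventually_ge_atTop 2).and ((t2.eventually_le_const (show (0 : ℝ) < 1 / 2 by norm_num)).and
    (tl.eventually_ge_atTop 1)))
  refine ⟨δ', h1, N₀, fun N hN => ?_⟩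
  obtain ⟨g1, g2, g3⟩ := h N hN
  set x := Real.log N with hx
  have e : x ^ (1 / 2 - δ) = x ^ (1 / 2 - δ') * x ^ (-(δ - δ')) := by
    rw [← Real.rpow_add (by linarith)]
    congr 1
    ring
  have h4 : x ^ (1 / 2 - δ) ≤ x ^ (1 / 2 - δ') / 2 := by
    rw [e]
    have := mul_le_mul_of_nonneg_left g2 (show 0 ≤ x ^ (1 / 2 - δ') by positivity)
    linarith
  have h5 : 2 ≤ Real.exp 1 := by have := Real.exp_one_gt_d9; linarith
  unfold lev
  rw [← hx]
  calc 2 * (√ (N : ℝ) * Real.exp (x ^ (1 / 2 - δ))) ≤ Real.exp 1 * (√ (N : ℝ) * Real.exp (x ^ (1 / 2 - δ))) :=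
        mul_le_mul_of_nonneg_right h5 (by positivity)
    _ = √ (N : ℝ) * Real.exp (1 + x ^ (1 / 2 - δ)) := by rw [Real.exp_add]; ring
    _ ≤ _ := by
        apply mul_le_mul_of_nonneg_left _ (Real.sqrt_nonneg _)
        apply Real.exp_le_exp.2
        linarith

theorem oq_even {q : ℕ} (h : q % 2 = 0) : oq q = q := if_pos h

theorem oq_odd {q : ℕ} (h : ¬ q % 2 = 0) : oq q = 2 * q := if_neg h

/-- THE TRANSFER TO ODD INTEGERS -/
theorem RVO_of {F : ℕ → ℕ → ℝ} {V : ℝ} (h : RVF F V) : RVO F V := by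
  classical
  constructor
  · intro δ hδ ε hε
    obtain ⟨δ', hδ', N1, g1⟩ := lev_two hδ
    obtain ⟨N2, g2⟩ := h.1 δ' hδ' (ε / 4) (by positivity)
    obtain ⟨N3, g3⟩ := lev_le hδ (show 0 < ε / (4 * (|V| + 1)) by positivity)
    refine ⟨max N1 (max N2 N3), fun N hN Q hQ hQl a => ?_⟩
    have h1 := g1 N ((le_max_left _ _).trans hN)
    have h2 := g2 N (((le_max_left _ _).trans (le_max_right _ _)).trans hN)
    have h3 := g3 N (((le_max_right _ _).trans (le_max_right _ _)).trans hN)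
    have hl0 : 0 ≤ lev δ N := by unfold lev; positivity
    have k1 := h2 Q hQ (by linarith) (fun q => oa q (a q))
    have k2 := h2 (2 * Q) (by omega) (by push_cast; linarith) (fun q => oa (q / 2) (a (q / 2)))
    simp only at k1 k2 ⊢
    have k3 : ∑ q ∈ Ico Q (2 * Q), |cfo (F N) N q (a q) - V * cfo (fun _ => 1) N q (a q)| ≤
        ∑ q ∈ Ico Q (2 * Q), (|cf (F N) N (oq q) (oa q (a q)) - V * N / ((oq q : ℕ) : ℝ)| + |V|) := by
      apply sum_le_sum
      intro q hq
      rw [mem_Ico] at hq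
      exact odd_disc _ _ _ (by omega) _
    rw [sum_add_distrib, sum_const, Nat.card_Ico, nsmul_eq_mul, show 2 * Q - Q = Q by omega] at k3
    have k4 : ∑ q ∈ Ico Q (2 * Q), |cf (F N) N (oq q) (oa q (a q)) - V * N / ((oq q : ℕ) : ℝ)| ≤
        ∑ q ∈ Ico Q (2 * Q), |cf (F N) N q (oa q (a q)) - V * N / (q : ℝ)| +
        ∑ q ∈ Ico (2 * Q) (2 * (2 * Q)), |cf (F N) N q (oa (q / 2) (a (q / 2))) - V * N / (q : ℝ)| := by
      rw [← sum_filter_add_sum_filter_not (Ico Q (2 * Q)) (fun q => q % 2 = 0)]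
      apply add_le_add
      · calc ∑ q ∈ Ico Q (2 * Q) with q % 2 = 0, |cf (F N) N (oq q) (oa q (a q)) - V * N / ((oq q : ℕ) : ℝ)| =
            ∑ q ∈ Ico Q (2 * Q) with q % 2 = 0, |cf (F N) N q (oa q (a q)) - V * N / (q : ℝ)| := by
              apply sum_congr rfl
              intro q hq
              rw [mem_filter] at hq
              rw [oq_even hq.2]
          _ ≤ _ := sum_le_sum_of_subset_of_nonneg (filter_subset _ _) fun _ _ _ => abs_nonneg _
      · calc ∑ q ∈ Ico Q (2 * Q) with ¬ q % 2 = 0, |cf (F N) N (oq q) (oa q (a q)) - V * N / ((oq q : ℕ) : ℝ)| =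
            ∑ q ∈ ((Ico Q (2 * Q)).filter (fun q => ¬ q % 2 = 0)).image (fun q => 2 * q),
              |cf (F N) N q (oa (q / 2) (a (q / 2))) - V * N / (q : ℝ)| := by
              rw [sum_image (fun x _ y _ hxy => by simpa using hxy)]
              apply sum_congr rfl
              intro q hq
              rw [mem_filter] at hq
              rw [oq_odd hq.2, Nat.mul_div_cancel_left q (by norm_num : 0 < 2)]
          _ ≤ _ := by
              apply sum_le_sum_of_subset_of_nonneg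
              · intro q hq
                rw [mem_image] at hq
                obtain ⟨q', h5, rfl⟩ := hq
                rw [mem_filter, mem_Ico] at h5
                rw [mem_Ico]
                omega
              · intro _ _ _; exact abs_nonneg _
    have hV : (Q : ℝ) * |V| ≤ ε / 4 * N := by
      have h5 : (Q : ℝ) ≤ ε / (4 * (|V| + 1)) * N := hQl.trans h3
      have h6 : (Q : ℝ) * |V| ≤ (ε / (4 * (|V| + 1)) * N) * (|V| + 1) :=
        mul_le_mul h5 (by linarith) (abs_nonneg _) (by positivity)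
      have h7 : (ε / (4 * (|V| + 1)) * N) * (|V| + 1) = ε / 4 * N := by field_simp
      linarith
    have : 0 ≤ ε * (N : ℝ) := by positivity
    linarith
  · intro ε hε
    obtain ⟨η1, hη1, N1, g1⟩ := h.2 (ε / 16) (by positivity)
    set η : ℝ := min (η1 / 2) (min 1 (ε / (16 * (V ^ 2 + 1)))) with hη
    have hη0 : 0 < η := by positivity
    have e1 : η ≤ η1 / 2 := min_le_left _ _
    have e2 : η ≤ 1 := (min_le_right _ _).trans (min_le_left _ _)
    have e3 : η ≤ ε / (16 * (V ^ 2 + 1)) := (min_le_right _ _).trans (min_le_right _ _)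
    refine ⟨η, hη0, N1, fun N hN Q hQ hQl => ?_⟩
    have hN0 : (0 : ℝ) ≤ N := Nat.cast_nonneg _
    have h2 := g1 N hN
    have m1 : η * (N : ℝ) ≤ η1 / 2 * N := mul_le_mul_of_nonneg_right e1 hN0
    have m0 : 0 ≤ η1 * (N : ℝ) := by positivity
    have k1 := h2 Q hQ (by linarith)
    have k2 := h2 (2 * Q) (by omega) (by push_cast; linarith)
    simp only at k1 k2 ⊢
    set D : ℕ → ℤ → ℝ := fun q a => cf (F N) N q a - V * N / q with hD
    -- one modulus
    have k3 : ∀ q : ℕ, 1 ≤ q → ∑ a ∈ range q, (cfo (F N) N q ((a : ℕ) : ℤ) - V * cfo (fun _ => 1) N q ((a : ℕ) : ℤ)) ^ 2 ≤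
        2 * ∑ a ∈ range (oq q), (D (oq q) ((a : ℕ) : ℤ)) ^ 2 + 2 * (V ^ 2 * q) := by
      intro q hq
      have p1 : ∀ a : ℕ, ¬ (q % 2 = 0 ∧ a % 2 = 0) →
          (cfo (F N) N q ((a : ℕ) : ℤ) - V * cfo (fun _ => 1) N q ((a : ℕ) : ℤ)) ^ 2 ≤
            2 * (D (oq q) (oa q ((a : ℕ) : ℤ))) ^ 2 + 2 * V ^ 2 := by
        intro a _
        have p2 := odd_disc (F N) V N hq ((a : ℕ) : ℤ)
        rw [← sq_abs, ← sq_abs (D _ _), ← sq_abs V]
        have p3 := pow_le_pow_left₀ (abs_nonneg _) p2 2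
        refine p3.trans ?_
        nlinarith [sq_nonneg (|cf (F N) N (oq q) (oa q ((a : ℕ) : ℤ)) - V * N / ((oq q : ℕ) : ℝ)| - |V|)]
      calc ∑ a ∈ range q, (cfo (F N) N q ((a : ℕ) : ℤ) - V * cfo (fun _ => 1) N q ((a : ℕ) : ℤ)) ^ 2
          = ∑ a ∈ range q with ¬ (q % 2 = 0 ∧ a % 2 = 0),
            (cfo (F N) N q ((a : ℕ) : ℤ) - V * cfo (fun _ => 1) N q ((a : ℕ) : ℤ)) ^ 2 := by
            rw [sum_filter]
            apply sum_congr rfl
            intro a _
            by_cases hh : q % 2 = 0 ∧ a % 2 = 0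
            · have hh2 : ((a : ℕ) : ℤ) % 2 = 0 := by omega
              rw [if_neg (not_not.2 hh), cfo_zero _ _ hh.1 hh2, cfo_zero _ _ hh.1 hh2]
              ring
            · rw [if_pos hh]
        _ ≤ ∑ a ∈ range q with ¬ (q % 2 = 0 ∧ a % 2 = 0), (2 * (D (oq q) (oa q ((a : ℕ) : ℤ))) ^ 2 + 2 * V ^ 2) := by
            apply sum_le_sum
            intro a ha
            rw [mem_filter] at ha
            exact p1 a ha.2
        _ = 2 * ∑ a ∈ range q with ¬ (q % 2 = 0 ∧ a % 2 = 0), (D (oq q) (oa q ((a : ℕ) : ℤ))) ^ 2 +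
            #{a ∈ range q | ¬ (q % 2 = 0 ∧ a % 2 = 0)} * (2 * V ^ 2) := by
            rw [sum_add_distrib, ← mul_sum, sum_const, nsmul_eq_mul]
        _ ≤ 2 * ∑ a ∈ range (oq q), (D (oq q) ((a : ℕ) : ℤ)) ^ 2 + 2 * (V ^ 2 * q) := by
            have p4 : (#{a ∈ range q | ¬ (q % 2 = 0 ∧ a % 2 = 0)} : ℝ) ≤ q := by
              have := card_filter_le (range q) (fun a => ¬ (q % 2 = 0 ∧ a % 2 = 0))
              rw [card_range] at this
              exact_mod_cast this
            have p5 : ∑ a ∈ range q with ¬ (q % 2 = 0 ∧ a % 2 = 0), (D (oq q) (oa q ((a : ℕ) : ℤ))) ^ 2 ≤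
                ∑ a ∈ range (oq q), (D (oq q) ((a : ℕ) : ℤ)) ^ 2 := by
              have hnn : ∀ a ∈ range q, 0 ≤ oa q ((a : ℕ) : ℤ) ∧ oa q ((a : ℕ) : ℤ) < (oq q : ℕ) := by
                intro a ha
                rw [mem_range] at ha
                unfold oa oq
                split_ifs <;> push_cast <;> constructor <;> omega
              calc ∑ a ∈ range q with ¬ (q % 2 = 0 ∧ a % 2 = 0), (D (oq q) (oa q ((a : ℕ) : ℤ))) ^ 2
                  = ∑ b ∈ ((range q).filter (fun a : ℕ => ¬ (q % 2 = 0 ∧ a % 2 = 0))).image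
                      (fun a : ℕ => (oa q ((a : ℕ) : ℤ)).toNat), (D (oq q) ((b : ℕ) : ℤ)) ^ 2 := by
                    rw [sum_image]
                    · apply sum_congr rfl
                      intro a ha
                      rw [mem_filter] at ha
                      rw [Int.toNat_of_nonneg (hnn a ha.1).1]
                    · intro x hx y hy hxy
                      rw [mem_coe, mem_filter] at hx hy
                      have hx1 := hnn x hx.1
                      have hy1 := hnn y hy.1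
                      have hxq := mem_range.1 hx.1
                      have hyq := mem_range.1 hy.1
                      have h5 : oa q ((x : ℕ) : ℤ) = oa q ((y : ℕ) : ℤ) := by
                        simp only at hxy
                        omega
                      unfold oa at h5
                      split_ifs at h5 <;> omega
                _ ≤ _ := by
                    apply sum_le_sum_of_subset_of_nonneg
                    · intro b hb
                      rw [mem_image] at hb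
                      obtain ⟨a, ha, rfl⟩ := hb
                      rw [mem_filter] at ha
                      have := hnn a ha.1
                      rw [mem_range]
                      omega
                    · intro _ _ _; exact sq_nonneg _
            have p6 := mul_le_mul_of_nonneg_right p4 (show 0 ≤ 2 * V ^ 2 by positivity)
            nlinarith
    have k4 : ∑ q ∈ Ico Q (2 * Q), ∑ a ∈ range (oq q), (D (oq q) ((a : ℕ) : ℤ)) ^ 2 ≤
        ∑ q ∈ Ico Q (2 * Q), ∑ a ∈ range q, (D q ((a : ℕ) : ℤ)) ^ 2 +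
        ∑ q ∈ Ico (2 * Q) (2 * (2 * Q)), ∑ a ∈ range q, (D q ((a : ℕ) : ℤ)) ^ 2 := by
      rw [← sum_filter_add_sum_filter_not (Ico Q (2 * Q)) (fun q => q % 2 = 0)]
      apply add_le_add
      · calc ∑ q ∈ Ico Q (2 * Q) with q % 2 = 0, ∑ a ∈ range (oq q), (D (oq q) ((a : ℕ) : ℤ)) ^ 2 =
            ∑ q ∈ Ico Q (2 * Q) with q % 2 = 0, ∑ a ∈ range q, (D q ((a : ℕ) : ℤ)) ^ 2 := by
              apply sum_congr rfl
              intro q hq
              rw [mem_filter] at hq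
              rw [oq_even hq.2]
          _ ≤ _ := sum_le_sum_of_subset_of_nonneg (filter_subset _ _) fun _ _ _ => sum_nonneg fun _ _ => sq_nonneg _
      · calc ∑ q ∈ Ico Q (2 * Q) with ¬ q % 2 = 0, ∑ a ∈ range (oq q), (D (oq q) ((a : ℕ) : ℤ)) ^ 2 =
            ∑ q ∈ ((Ico Q (2 * Q)).filter (fun q => ¬ q % 2 = 0)).image (fun q => 2 * q),
              ∑ a ∈ range q, (D q ((a : ℕ) : ℤ)) ^ 2 := by
              rw [sum_image (fun x _ y _ hxy => by simpa using hxy)]
              apply sum_congr rfl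
              intro q hq
              rw [mem_filter] at hq
              rw [oq_odd hq.2]
          _ ≤ _ := by
              apply sum_le_sum_of_subset_of_nonneg
              · intro q hq
                rw [mem_image] at hq
                obtain ⟨q', h5, rfl⟩ := hq
                rw [mem_filter, mem_Ico] at h5
                rw [mem_Ico]
                omega
              · intro _ _ _; exact sum_nonneg fun _ _ => sq_nonneg _
    have k5 : ∑ q ∈ Ico Q (2 * Q), ∑ a ∈ range q,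
        (cfo (F N) N q ((a : ℕ) : ℤ) - V * cfo (fun _ => 1) N q ((a : ℕ) : ℤ)) ^ 2 ≤
        2 * ∑ q ∈ Ico Q (2 * Q), ∑ a ∈ range (oq q), (D (oq q) ((a : ℕ) : ℤ)) ^ 2 + 4 * (V ^ 2 * Q ^ 2) := by
      calc ∑ q ∈ Ico Q (2 * Q), ∑ a ∈ range q,
          (cfo (F N) N q ((a : ℕ) : ℤ) - V * cfo (fun _ => 1) N q ((a : ℕ) : ℤ)) ^ 2 ≤
          ∑ q ∈ Ico Q (2 * Q), (2 * ∑ a ∈ range (oq q), (D (oq q) ((a : ℕ) : ℤ)) ^ 2 + 4 * (V ^ 2 * Q)) := by
            apply sum_le_sum
            intro q hq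
            rw [mem_Ico] at hq
            refine (k3 q (by omega)).trans ?_
            have hq2 : (q : ℝ) ≤ 2 * Q := by exact_mod_cast hq.2.le
            have := mul_le_mul_of_nonneg_left hq2 (show 0 ≤ 2 * V ^ 2 by positivity)
            linarith
        _ = 2 * ∑ q ∈ Ico Q (2 * Q), ∑ a ∈ range (oq q), (D (oq q) ((a : ℕ) : ℤ)) ^ 2 + 4 * (V ^ 2 * Q ^ 2) := by
            rw [sum_add_distrib, ← mul_sum, sum_const, Nat.card_Ico, nsmul_eq_mul, show 2 * Q - Q = Q by omega]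
            ring
    have hQ0 : (0 : ℝ) ≤ Q := Nat.cast_nonneg _
    have hVQ : V ^ 2 * (Q : ℝ) ^ 2 ≤ ε / 16 * N ^ 2 := by
      have h5 : (Q : ℝ) ^ 2 ≤ ε / (16 * (V ^ 2 + 1)) * N ^ 2 := by
        calc (Q : ℝ) ^ 2 = Q * Q := by ring
          _ ≤ (ε / (16 * (V ^ 2 + 1)) * N) * (1 * N) :=
              mul_le_mul (hQl.trans (mul_le_mul_of_nonneg_right e3 hN0)) (hQl.trans (mul_le_mul_of_nonneg_right e2 hN0))
                hQ0 (by positivity)
          _ = _ := by ring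
      have h6 : V ^ 2 * (Q : ℝ) ^ 2 ≤ (V ^ 2 + 1) * (ε / (16 * (V ^ 2 + 1)) * N ^ 2) :=
        mul_le_mul (by linarith) h5 (by positivity) (by positivity)
      have h7 : (V ^ 2 + 1) * (ε / (16 * (V ^ 2 + 1)) * N ^ 2) = ε / 16 * N ^ 2 := by field_simp
      linarith
    have hεN : 0 ≤ ε * (N : ℝ) ^ 2 := by positivity
    linarith

/-- all classes to almost all moduli, for any discrepancies -/
theorem disc_all {D : ℕ → ℕ → ℤ → ℝ} (h : ∀ δ : ℝ, 0 < δ → ∀ ε : ℝ, 0 < ε → ∃ N₀ : ℕ, ∀ N : ℕ, N₀ ≤ N → Lev δ ε N (D N))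
    {δ : ℝ} (hδ : 0 < δ) (hδ2 : δ < 1 / 2) {ε : ℝ} (hε : 0 < ε) :
    ∃ Q₀ : ℕ, ∀ Q : ℕ, Q₀ ≤ Q → ({q : ℕ | Q ≤ q ∧ q < 2 * Q ∧ ∃ a : ℤ,
      ε * (⌊len δ Q⌋₊ / q) < |D ⌊len δ Q⌋₊ q a|}.ncard : ℝ) ≤ ε * Q := by
  classical
  obtain ⟨N₁, h1⟩ := h δ hδ (ε ^ 2 / 2) (by positivity)
  obtain ⟨Q₁, h3⟩ := eventually_atTop.1 (len_facts hδ hδ2)
  refine ⟨max N₁ (max Q₁ 1), fun Q hQ => ?_⟩
  have hQ1 : N₁ ≤ Q := (le_max_left _ _).trans hQ
  have hQ3 : Q₁ ≤ Q := ((le_max_left _ _).trans (le_max_right _ _)).trans hQ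
  have hQ4 : 1 ≤ Q := ((le_max_right _ _).trans (le_max_right _ _)).trans hQ
  obtain ⟨h4, h5⟩ := h3 Q hQ3
  set N := ⌊len δ Q⌋₊ with hN
  have hN0 : (0 : ℝ) < N := by exact_mod_cast (by omega : 0 < N)
  have hQ0 : (0 : ℝ) < Q := by exact_mod_cast hQ4
  have hch : ∀ q : ℕ, ∃ a : ℤ, (∃ a : ℤ, ε * (N / q) < |D N q a|) → ε * (N / q) < |D N q a| := by
    intro q
    by_cases h : ∃ a : ℤ, ε * (N / q) < |D N q a|
    · obtain ⟨a, ha⟩ := h
      exact ⟨a, fun _ => ha⟩
    · exact ⟨0, fun h' => absurd h' h⟩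
  choose a ha using hch
  have h8 := h1 N (hQ1.trans h4) Q hQ4 h5 a
  have e1 : {q : ℕ | Q ≤ q ∧ q < 2 * Q ∧ ∃ a : ℤ, ε * (N / q) < |D N q a|} =
      ((Ico Q (2 * Q)).filter (fun q : ℕ => ∃ a : ℤ, ε * (N / q) < |D N q a|) : Finset ℕ) := by
    ext q
    simp [and_assoc]
  rw [e1, Set.ncard_coe_finset]
  set B := (Ico Q (2 * Q)).filter (fun q : ℕ => ∃ a : ℤ, ε * (N / q) < |D N q a|) with hB
  have h9 : ∀ q ∈ B, ε * (N / (2 * Q)) ≤ |D N q (a q)| := by
    intro q hq
    rw [hB, mem_filter, mem_Ico] at hq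
    obtain ⟨⟨g1, g2⟩, g3⟩ := hq
    have hq0 : (0 : ℝ) < q := by exact_mod_cast (by omega : 0 < q)
    have g6 : (q : ℝ) ≤ 2 * Q := by exact_mod_cast g2.le
    refine le_trans ?_ (ha q g3).le
    exact mul_le_mul_of_nonneg_left (div_le_div_of_nonneg_left hN0.le hq0 g6) hε.le
  have h10 : (#B : ℝ) * (ε * (N / (2 * Q))) ≤ ε ^ 2 / 2 * N := by
    calc (#B : ℝ) * (ε * (N / (2 * Q))) = ∑ q ∈ B, ε * (N / (2 * Q)) := by rw [sum_const, nsmul_eq_mul]
      _ ≤ ∑ q ∈ B, |D N q (a q)| := sum_le_sum h9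
      _ ≤ ∑ q ∈ Ico Q (2 * Q), |D N q (a q)| :=
          sum_le_sum_of_subset_of_nonneg (filter_subset _ _) fun _ _ _ => abs_nonneg _
      _ ≤ _ := h8
  have e2 : (#B : ℝ) * (ε * (N / (2 * Q))) = (#B / Q) * (ε / 2 * N) := by field_simp
  have e3 : ε ^ 2 / 2 * N = ε * (ε / 2 * N) := by ring
  rw [e2, e3] at h10
  have h12 := le_of_mul_le_mul_right h10 (by positivity)
  rwa [div_le_iff₀ hQ0] at h12

/-- the number of odd elements of a class -/
theorem cfo_one_ge (N : ℕ) {q : ℕ} (hq : 1 ≤ q) {a : ℤ} (h : ¬ (q % 2 = 0 ∧ a % 2 = 0)) :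
    (N : ℝ) / (2 * q) - 1 ≤ cfo (fun _ => 1) N q a := by
  rw [cfo_eq _ _ h, cf_one]
  have h1 := (abs_le.1 (ct_true (N := N) (oq_pos hq) (oa q a))).1
  have hq0 : (0 : ℝ) < q := by exact_mod_cast hq
  have h2 : ((oq q : ℕ) : ℝ) ≤ 2 * q := by
    unfold oq
    split_ifs
    · linarith
    · push_cast; linarith
  have h3 : (0 : ℝ) < ((oq q : ℕ) : ℝ) := by exact_mod_cast (oq_pos hq)
  have h4 : (N : ℝ) / (2 * q) ≤ N / ((oq q : ℕ) : ℝ) := div_le_div_of_nonneg_left (Nat.cast_nonneg _) h3 h2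
  linarith

theorem cfo_one_nonneg (N q : ℕ) (a : ℤ) : 0 ≤ cfo (fun _ => 1) N q a := by
  unfold cfo
  apply sum_nonneg
  intro n _
  split_ifs <;> norm_num

end Pool.Agent.Q37.LV
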