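import Pool.Agent.Q37.LV.Gen
import Pool.Agent.Y964.LW.C4
import Pool.Agent.Y967.CM.U

/-! Events given by the total stopping times are constant on windows. -/

set_option autoImplicit false

namespace Pool.Agent.Q37.LV

open Finset Filter Topology Pool.Agent.H499R2.CO Pool.Agent.W38.CR Pool.Agent.Y967.CM Pool.Agent.Q37.BV
  Pool.Agent.Y964.LW

theorem oc_ev (l : List Bool) : ∀ (A : ℕ × ℤ) (m : ℤ),
    A.1 + oc 1 l.length (ev A (2 ^ l.length * m + bv l)) = (fl l A).1 := by
  induction l with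
  | nil => intro A m; simp [fl, oc_zero]
  | cons b l ih =>
    intro A m
    have e : (2 : ℤ) ^ (b :: l).length * m + bv (b :: l) = 2 * (2 ^ l.length * m + bv l) + bz b := by
      simp only [List.length_cons, bv, pow_succ]; ring
    rw [e, List.length_cons, oc_succ, Tz_ev]
    have h1 := ih (fs b A) m
    have h2 : (fs b A).1 = A.1 + (if ev A (2 * (2 ^ l.length * m + bv l) + bz b) % 2 = 1 then 1 else 0) := by
      have e2 : ev A (2 * (2 ^ l.length * m + bv l) + bz b) = 2 * (3 ^ A.1 * (2 ^ l.length * m + bv l)) + vl b A := by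
        unfold ev vl; ring
      rw [e2]
      unfold fs
      rcases Int.emod_two_eq_zero_or_one (vl b A) with h | h
      · rw [if_pos h, if_neg (by omega)]; rfl
      · rw [if_neg (by omega), if_pos (by omega)]
    show A.1 + ((if ev A (2 * (2 ^ l.length * m + bv l) + bz b) % 2 = 1 then 1 else 0) +
      oc 1 l.length (ev (fs b A) (2 ^ l.length * m + bv l))) = (fl l (fs b A)).1
    rw [← h1, h2]
    ring

theorem WB_spec_oc {T m : ℕ} {y : ℤ} (h : ¬ WB T m y) (k : ℕ) (hk : k < 2 ^ 2 ^ m) :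
    oc 1 T (y + k) = oc 1 T y := by
  have h2T : (0 : ℤ) < 2 ^ T := by positivity
  have hall : ∀ A ∈ im (cb T y) (Q0 (2 ^ m)), A = fl (cb T y) (0, 0) := by
    by_contra hcon
    apply h
    unfold WB
    rw [bad_one hcon]
    norm_num
  have h1 := hall (fl (cb T y) (0, (k : ℤ))) (by
    unfold im Q0
    apply mem_image_of_mem
    rw [mem_image]
    exact ⟨k, mem_range.2 hk, rfl⟩)
  have e : y = 2 ^ (cb T y).length * (y / 2 ^ T) + bv (cb T y) := by
    rw [length_cb]
    exact cb_decomp T y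
  have h3 := oc_ev (cb T y) (0, (k : ℤ)) (y / 2 ^ T)
  have h4 := oc_ev (cb T y) (0, 0) (y / 2 ^ T)
  rw [← e, length_cb] at h3 h4
  have e3 : ev (0, (k : ℤ)) y = y + k := by unfold ev; simp
  have e4 : ev (0, 0) y = y := by unfold ev; simp
  rw [e3] at h3
  rw [e4] at h4
  rw [h1] at h3
  omega

theorem WB_both_oc {T m : ℕ} {y : ℤ} (h : ¬ WB T m (y + -2 ^ (2 ^ m - 1))) {r : ℤ} (hr : |r| < 2 ^ (2 ^ m - 1)) :
    oc 1 T (y + r) = oc 1 T y := by
  have hm : 2 ^ m = (2 ^ m - 1) + 1 := by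
    have : 0 < 2 ^ m := by positivity
    omega
  have h2 : (2 : ℕ) ^ 2 ^ m = 2 * 2 ^ (2 ^ m - 1) := by
    conv_lhs => rw [hm]
    rw [pow_succ]; ring
  have hHpos : (0 : ℤ) < 2 ^ (2 ^ m - 1) := by positivity
  have key : ∀ s : ℤ, |s| < 2 ^ (2 ^ m - 1) → oc 1 T (y + s) = oc 1 T (y + -2 ^ (2 ^ m - 1)) := by
    intro s hs
    have hs1 := abs_lt.1 hs
    have h3 := WB_spec_oc h (2 ^ (2 ^ m - 1) + s).toNat (by
      rw [h2]
      have h4 : (((2 ^ (2 ^ m - 1) + s).toNat : ℕ) : ℤ) < ((2 * 2 ^ (2 ^ m - 1) : ℕ) : ℤ) := by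
        rw [Int.toNat_of_nonneg (by linarith)]
        push_cast
        linarith
      exact_mod_cast h4)
    rw [Int.toNat_of_nonneg (by linarith)] at h3
    rw [← h3]
    congr 1
    ring
  have h3 := key 0 (by rw [abs_zero]; exact hHpos)
  rw [add_zero] at h3
  rw [key r hr, h3]

/-- the trajectory of a large number stays large for a while -/
theorem Tz_ge (T : ℕ) : ∀ x R : ℤ, 0 ≤ R → R * 2 ^ T < x → R < (Tz 1)^[T] x := by
  induction T with
  | zero => intro x R _ h; simpa using h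
  | succ T ih =>
    intro x R hR h
    rw [Function.iterate_succ_apply]
    apply ih _ _ hR
    have h0 : 0 ≤ R * 2 ^ T := by positivity
    have h1 : R * 2 ^ (T + 1) = 2 * (R * 2 ^ T) := by rw [pow_succ]; ring
    rw [h1] at h
    unfold Tz
    split_ifs with h2
    · omega
    · omega

open Classical in
/-- the indicator function of an event, shifted -/
noncomputable def FE (P : ℕ → Prop) (X : ℕ) (n : ℤ) : ℝ := if 1 ≤ n ∧ P (n + X).toNat then 1 else 0

theorem FE_win {R : ℕ} {P : ℕ → Prop} (hP : ∀ (j : ℕ) (x y : ℕ), 1 ≤ x → 1 ≤ y →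
    (Tz 1)^[j] (x : ℤ) = (Tz 1)^[j] (y : ℤ) →
    oc 1 j (x : ℤ) = oc 1 j (y : ℤ) → (R : ℤ) < (Tz 1)^[j] (x : ℤ) → (P x → P y)) {τ : ℝ} {X : ℕ}
    (hX : (R : ℝ) * τ ≤ X) : WinC τ (FE P X) := by
  classical
  constructor
  · intro n
    unfold FE
    split_ifs <;> norm_num
  · intro T m hT
    refine ⟨1, X + -2 ^ (2 ^ m - 1), by norm_num, fun n hn hW i h0 hi => ?_⟩
    have e : 1 * n + (X + -2 ^ (2 ^ m - 1)) = (n + X) + -2 ^ (2 ^ m - 1) := by ring
    rw [e] at hW
    have hri : |i| < 2 ^ (2 ^ m - 1) := by rw [abs_of_nonneg h0]; exact hi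
    have h1 : (Tz 1)^[T] ((n + X) + i) = (Tz 1)^[T] (n + X) := by
      apply WB_both (m := m) _ hri
      rwa [← sub_eq_add_neg] at hW
    have h2 := WB_both_oc hW hri
    have hXn : (0 : ℤ) ≤ X := Int.natCast_nonneg X
    have h3 : (R : ℤ) * 2 ^ T < n + X := by
      have h4 : (R : ℝ) * 2 ^ T ≤ X := (mul_le_mul_of_nonneg_left hT (Nat.cast_nonneg R)).trans hX
      have h5 : (R : ℤ) * 2 ^ T ≤ X := by exact_mod_cast h4
      linarith
    have h4 := Tz_ge T (n + X) R (Int.natCast_nonneg R) h3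
    set x : ℕ := (n + X).toNat with hx
    set y : ℕ := (n + i + X).toNat with hy
    have ex : (x : ℤ) = n + X := Int.toNat_of_nonneg (by linarith)
    have ey : (y : ℤ) = n + X + i := by rw [hy, Int.toNat_of_nonneg (by linarith)]; ring
    have hx1 : 1 ≤ x := by omega
    have hy1 : 1 ≤ y := by omega
    have hiff : P x ↔ P y := by
      constructor
      · exact hP T x y hx1 hy1 (by rw [ex, ey, h1]) (by rw [ex, ey, h2]) (by rw [ex]; exact h4)
      · exact hP T y x hy1 hx1 (by rw [ex, ey, h1]) (by rw [ex, ey, h2]) (by rw [ey, h1]; exact h4)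
    unfold FE
    rw [← hx, ← hy]
    by_cases h5 : P x
    · rw [if_pos ⟨by omega, hiff.1 h5⟩, if_pos ⟨hn, h5⟩]
    · rw [if_neg (fun h => h5 (hiff.2 h.2)), if_neg (fun h => h5 h.2)]

/-- the number of the `n ≤ M`, `n ≡ a` modulo `q`, with the property `P` -/
noncomputable def ct (P : ℕ → Prop) (M q : ℕ) (a : ℤ) : ℝ :=
  ({n : ℕ | 1 ≤ n ∧ n ≤ M ∧ (n : ℤ) ≡ a [ZMOD q] ∧ P n}.ncard : ℝ)

open Classical in
theorem ct_eq (P : ℕ → Prop) (M q : ℕ) (a : ℤ) :
    ct P M q a = ∑ n ∈ Icc 1 M, (if (q : ℤ) ∣ (n : ℤ) - a ∧ P n then (1 : ℝ) else 0) := by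
  unfold ct
  have e1 : {n : ℕ | 1 ≤ n ∧ n ≤ M ∧ (n : ℤ) ≡ a [ZMOD q] ∧ P n} =
      ((Icc 1 M).filter (fun n : ℕ => (q : ℤ) ∣ (n : ℤ) - a ∧ P n) : Finset ℕ) := by
    ext n
    simp only [Set.mem_ofPred_eq, coe_filter, mem_Icc, and_assoc]
    rw [Int.modEq_comm, Int.modEq_iff_dvd]
  rw [e1, Set.ncard_coe_finset, card_filter]
  push_cast
  rfl

/-- the discrepancy of an event and of its shifted indicator function -/
theorem ct_dF (P : ℕ → Prop) {M X q : ℕ} (hX : X ≤ M) (hq : 1 ≤ q) (a : ℤ) :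
    |ct P M q a - ct P M 1 0 / q| ≤ |dF (FE P X) (M - X) q (a - X)| + (2 * X / q + 1) := by
  classical
  have hq0 : (0 : ℝ) < q := by exact_mod_cast hq
  have e1 : ct P M q a - ct P M 1 0 / q = ∑ n ∈ Icc 1 M, bal q a n * (if P n then (1 : ℝ) else 0) := by
    rw [ct_eq, ct_eq, sum_div, ← sum_sub_distrib]
    apply sum_congr rfl
    intro n _
    unfold bal ind
    have h1 : ((1 : ℕ) : ℤ) ∣ (n : ℤ) - 0 := by simp
    by_cases h2 : P n
    · by_cases h3 : (q : ℤ) ∣ (n : ℤ) - a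
      · simp [h2, h3]
      · simp [h2, h3]
    · simp [h2]
  have e2 : ∑ n ∈ Icc 1 M, bal q a n * (if P n then (1 : ℝ) else 0) =
      ∑ n ∈ Icc 1 X, bal q a n * (if P n then (1 : ℝ) else 0) +
      ∑ n ∈ Icc (X + 1) M, bal q a n * (if P n then (1 : ℝ) else 0) := by
    have h1 : Icc 1 M = Icc 1 X ∪ Icc (X + 1) M := by
      ext n; simp only [mem_union, mem_Icc]; omega
    rw [h1, sum_union]
    rw [disjoint_left]
    intro n h2 h3
    rw [mem_Icc] at h2 h3
    omega
  have e3 : ∑ n ∈ Icc (X + 1) M, bal q a n * (if P n then (1 : ℝ) else 0) = dF (FE P X) (M - X) q (a - X) := by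
    unfold dF
    have h1 : ∑ n ∈ Ico (1 : ℤ) (1 + ((M - X : ℕ) : ℤ)), bal q (a - X) n * FE P X n =
        ∑ n ∈ Icc 1 (M - X), bal q (a - X) ((n : ℕ) : ℤ) * FE P X ((n : ℕ) : ℤ) :=
      sum_Ico_nat (M - X) (fun n => bal q (a - X) n * FE P X n)
    rw [h1]
    refine sum_nbij' (fun n => n - X) (fun n => n + X) ?_ ?_ ?_ ?_ ?_
    · intro n hn; rw [mem_Icc] at hn ⊢; omega
    · intro n hn; rw [mem_Icc] at hn ⊢; omega
    · intro n hn; rw [mem_Icc] at hn; omega
    · intro n hn; rw [mem_Icc] at hn; omega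
    · intro n hn
      rw [mem_Icc] at hn
      have h2 : ((n - X : ℕ) : ℤ) = (n : ℤ) - X := by omega
      unfold FE
      rw [h2]
      have h3 : ((n : ℤ) - X + X).toNat = n := by omega
      rw [h3]
      have h4 : bal q (a - X) ((n : ℤ) - X) = bal q a n := by
        rw [bal_shift]; congr 1; ring
      rw [h4]
      by_cases h5 : P n
      · rw [if_pos h5, if_pos ⟨by omega, h5⟩]
      · rw [if_neg h5, if_neg (fun h => h5 h.2)]
  rw [e1, e2, e3]
  have h4 : |∑ n ∈ Icc 1 X, bal q a n * (if P n then (1 : ℝ) else 0)| ≤ 2 * X / q + 1 := by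
    calc |∑ n ∈ Icc 1 X, bal q a n * (if P n then (1 : ℝ) else 0)|
        ≤ ∑ n ∈ Icc 1 X, (ind q a n + 1 / q) := by
          refine (abs_sum_le_sum_abs _ _).trans (sum_le_sum fun n _ => ?_)
          rw [abs_mul]
          have h5 : |bal q a n| ≤ ind q a n + 1 / q := by
            unfold bal
            have h6 := ind_nonneg q a n
            rw [abs_le]
            constructor
            · have : 0 ≤ 1 / (q : ℝ) := by positivity
              linarith
            · have : 0 ≤ 1 / (q : ℝ) := by positivity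
              linarith
          have h6 : |(if P n then (1 : ℝ) else 0)| ≤ 1 := by split_ifs <;> norm_num
          calc |bal q a n| * |(if P n then (1 : ℝ) else 0)| ≤ |bal q a n| * 1 :=
                mul_le_mul_of_nonneg_left h6 (abs_nonneg _)
            _ ≤ _ := by rw [mul_one]; exact h5
      _ = ∑ n ∈ Ico (1 : ℤ) (1 + X), (ind q a n + 1 / q) := by
          rw [sum_Ico_nat X (fun n => ind q a n + 1 / q)]
      _ ≤ 2 * X / q + 1 := by
          have h := sum_ind 1 X (q := q) hq a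
          rw [abs_le] at h
          rw [sum_add_distrib, sum_const, Int.card_Ico, nsmul_eq_mul]
          have h1 : (((1 + (X : ℤ) - 1).toNat : ℕ) : ℝ) = X := by
            rw [show 1 + (X : ℤ) - 1 = (X : ℤ) by ring, Int.toNat_natCast]
          rw [h1]
          have h9 : (X : ℝ) * (1 / q) = X / q := by ring
          rw [h9]
          have h10 : 2 * (X : ℝ) / q = X / q + X / q := by ring
          rw [h10]
          linarith [h.2]
  have h5 := abs_add_le (∑ n ∈ Icc 1 X, bal q a n * (if P n then (1 : ℝ) else 0)) (dF (FE P X) (M - X) q (a - X))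
  linarith

end Pool.Agent.Q37.LV
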